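import Mathlib

set_option autoImplicit false

/-!
The blocks of the Hasse-Witt matrix of a cyclic cover of the projective line.
-/

namespace Pool.Agent.N780.CC

open Polynomial

/-- The matrix of the Cartier operator on the forms `x ^ b F ^ (-1 / (p - 1)) dx`, `b < d`: the entry with
indices `a, b` (from `0`) is the coefficient of `x ^ (p (a + 1) - (b + 1))` in `F`, written as the
coefficient of `x ^ (p (a + 1))` in `x ^ (b + 1) F`. -/
noncomputable def hw {R : Type*} [CommRing R] (p d : ℕ) (F : R[X]) : Matrix (Fin d) (Fin d) R :=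
  Matrix.of fun a b => (X ^ ((b : ℕ) + 1) * F).coeff (p * ((a : ℕ) + 1))

/-- the dimension of the `i`-th eigenspace of the space of regular differential forms of the curve
`y ^ m = (x - t) ^ a0 ∏ (x - l j) ^ a j`: the largest integer `< ({i a0 / m} + ∑ {i a j / m})` (fractional
parts) -/
def dim (m i a0 : ℕ) {n : ℕ} (a : Fin n → ℕ) : ℕ := ((i * a0 % m) + ∑ j, (i * a j % m) - 1) / m

end Pool.Agent.N780.CC
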