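import Mathlib
import Pool.Agent.N780.CC.Defs

set_option autoImplicit false

/-!
Statements of the parts: cyclic covers of the line with one moving branch point.
-/

namespace Pool.Agent.N780.CC

open Polynomial

/-- no exponents congruent to `-1` modulo `p` -/
def NoTop {R : Type*} [CommRing R] (p : ℕ) (P : R[X]) : Prop := ∀ i : ℕ, P.coeff (i * p + (p - 1)) = 0

/-- `∏ (x - b j) ^ A j` -/
noncomputable def pp {R ι : Type*} [CommRing R] [Fintype ι] (b : ι → R) (A : ι → ℕ) : R[X] :=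
  ∏ j, (X - C (b j)) ^ A j

/-- Part KER -/
def S_KER : Prop := ∀ (R : Type) [CommRing R] (p d : ℕ) (_ : 2 ≤ p) (F : R[X])
  (_ : F.natDegree ≤ (d + 1) * (p - 1)) (u : Fin d → R),
  (hw p d F).mulVec u = 0 ↔ NoTop p ((∑ j, C (u j) * X ^ (j : ℕ)) * F)

/-- Part DUAL -/
def S_DUAL : Prop := ∀ (K : Type) [Field K] (p : ℕ) [Fact p.Prime] [CharP K p] (ι : Type) [Fintype ι]
  (b : ι → K) (_ : Function.Injective b) (A : ι → ℕ) (_ : ∀ j, 1 ≤ A j ∧ A j + 2 ≤ p)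
  (_ : (hw p ((∑ j, A j - 1) / (p - 1)) (pp b A)).det = 0),
  ∃ V : K[X], V ≠ 0 ∧ V.degree < (((∑ j, (p - 1 - A j) - 1) / (p - 1) : ℕ) : WithBot ℕ) ∧
    NoTop p (V * pp b (fun j => p - 1 - A j))

/-- Part PAIR -/
def S_PAIR : Prop := ∀ (K : Type) [Field K] (p : ℕ) [Fact p.Prime] [CharP K p] (ι : Type) [Fintype ι]
  (b : ι → K) (_ : Function.Injective b) (A : ι → ℕ) (_ : ∀ j, 1 ≤ A j ∧ A j + 2 ≤ p)
  (t : K) (_ : ∀ j, b j ≠ t) (A0 : ℕ) (_ : 1 ≤ A0 ∧ A0 + 2 ≤ p) (d d' : ℕ)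
  (_ : d + d' ≤ Fintype.card ι) (U V : K[X]) (_ : U.natDegree ≤ d) (_ : V.degree < (d' : WithBot ℕ))
  (_ : NoTop p (U * ((X - C t) ^ (A0 - 1) * pp b A)))
  (_ : NoTop p (V * ((X - C t) ^ (p - 1 - A0) * pp b (fun j => p - 1 - A j)))),
  U.eval t * V.eval t = 0

/-- Part IND -/
def S_IND : Prop := ∀ (R : Type) [CommRing R] [IsDomain R] (p : ℕ) [Fact p.Prime] [CharP R p]
  (D : Derivation ℤ R R) (ι : Type) [Fintype ι] (b : ι → R) (_ : ∀ j, D (b j) = 0) (t : R)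
  (_ : D t = 1) (A : ι → ℕ) (A0 : ℕ) (_ : 1 ≤ A0) (d : ℕ) (_ : d + A0 ≤ p)
  (_ : ∀ U : R[X], U.degree < (d : WithBot ℕ) → NoTop p (U * ((X - C t) ^ A0 * pp b A)) →
    U.eval t = 0),
  ∀ U : R[X], U.degree < (d : WithBot ℕ) → NoTop p (U * ((X - C t) ^ A0 * pp b A)) → U = 0

/-- Part GEN: the block of the generic member of the family is invertible -/
def S_GEN : Prop := ∀ (k : Type) [Field k] (p : ℕ) [Fact p.Prime] [CharP k p] (ι : Type) [Fintype ι]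
  (b : ι → k) (_ : Function.Injective b) (A : ι → ℕ) (_ : ∀ j, 1 ≤ A j ∧ A j + 2 ≤ p)
  (A0 : ℕ) (_ : 1 ≤ A0 ∧ A0 + 2 ≤ p) (_ : (A0 + ∑ j, A j - 1) / (p - 1) + A0 ≤ p)
  (_ : ((p - 1 - A0) + ∑ j, (p - 1 - A j) - 1) / (p - 1) ≤ A0 + 1),
  (hw p ((A0 + ∑ j, A j - 1) / (p - 1)) ((X - C X) ^ A0 * pp (fun j => C (b j)) A : k[X][X])).det ≠ 0

/-- the polynomials `f e`, `e < m`, of the curve `y ^ m = ∏ f e ^ e = (x - T) ^ a0 ∏ (x - l j) ^ a j` -/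
noncomputable def fam {R σ : Type*} [CommRing R] {n : ℕ} (s : σ) (l : Fin n → R) (a : Fin n → ℕ)
    (a0 e : ℕ) : (MvPolynomial σ R)[X] :=
  (if e = a0 then X - C (MvPolynomial.X s : MvPolynomial σ R) else 1) *
    ∏ j with a j = e, (X - C (MvPolynomial.C (l j)))

/-- Part GENZ: the blocks of the generic curve are invertible -/
def S_GENZ : Prop := ∀ (k : Type) [Field k] (p : ℕ) [Fact p.Prime] [CharP k p] (σ : Type) (s : σ)
  (m n i a0 : ℕ) (_ : 2 ≤ m) (_ : m ∣ p - 1) (_ : m * (n + 2) ≤ p) (_ : 1 ≤ i) (_ : i < m)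
  (_ : a0 < m) (_ : Nat.Coprime a0 m) (l : Fin n → k) (_ : Function.Injective l) (a : Fin n → ℕ)
  (_ : ∀ j, a j < m),
  (hw p (dim m i a0 a)
    (∏ e ∈ Finset.range m, fam s l a a0 e ^ ((i * e % m) * ((p - 1) / m)))).det ≠ 0

/-- The final statement: dense ordinary reduction of cyclic covers of the line with one transcendental
branch point -/
def Final : Prop := ∀ (k : Type) [Field k] [CharZero k] (σ ι : Type) [Finite σ] [Fintype ι]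
  (m n : ι → ℕ) (_ : ∀ c, 2 ≤ m c) (l : ∀ c, Fin (n c) → k) (_ : ∀ c, Function.Injective (l c))
  (a : ∀ c, Fin (n c) → ℕ) (_ : ∀ c j, a c j < m c) (a0 : ι → ℕ) (_ : ∀ c, a0 c < m c)
  (_ : ∀ c, Nat.Coprime (a0 c) (m c)) (t : σ → k)
  (_ : AlgebraicIndependent (IntermediateField.adjoin ℚ (⋃ c, Set.range (l c))) t) (s : ι → σ)
  (A : Subalgebra ℤ k) (_ : A.FG) (f : ι → ℕ → A[X])
  (_ : ∀ c e, (f c e).map (algebraMap A k) =
    (if e = a0 c then X - C (t (s c)) else 1) * ∏ j with a c j = e, (X - C (l c j)))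
  (g : A) (_ : g ≠ 0),
  ∃ N : ℕ, ∀ p : ℕ, N ≤ p → p.Prime → (∀ c, m c ∣ p - 1) → ∃ M : Ideal A, M.IsMaximal ∧
    (p : A) ∈ M ∧ g ∉ M ∧ ∀ c, ∀ i, 1 ≤ i → i < m c →
      (hw p (dim (m c) i (a0 c) (a c)) (∏ e ∈ Finset.range (m c),
        (f c e).map (Ideal.Quotient.mk M) ^ ((i * e % m c) * ((p - 1) / m c)))).det ≠ 0

end Pool.Agent.N780.CC
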