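import Mathlib
import Pool.Agent.N780.CC.Stm

set_option autoImplicit false

/-!
Part DUAL: the block of `F` and the block of the complementary exponents are singular at the same time.
-/

namespace Pool.Agent.N780.CC

open Polynomial

namespace DUALaux

open Classical in
/-- `∑ A j ∏ (k ≠ j) (X - b k)` -/
noncomputable def LL {K ι : Type} [Field K] [Fintype ι] (b : ι → K) (A : ι → ℕ) : K[X] :=
  ∑ j, C ((A j : ℕ) : K) * ∏ k ∈ Finset.univ.erase j, (X - C (b k))

variable {K ι : Type} [Field K] [Fintype ι]

open Classical in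
lemma hh_deriv (b : ι → K) (B : ι → ℕ) :
    (∏ j, (X - C (b j))) * derivative (pp b B) = LL b B * pp b B := by
  unfold pp LL
  rw [derivative_prod_finset, Finset.mul_sum, Finset.sum_mul]
  refine Finset.sum_congr rfl fun j _ => ?_
  have h1 : (∏ j, (X - C (b j))) = (X - C (b j)) * ∏ k ∈ Finset.univ.erase j, (X - C (b k)) :=
    (Finset.mul_prod_erase _ _ (Finset.mem_univ j)).symm
  have h2 : (∏ j, (X - C (b j)) ^ B j) = (X - C (b j)) ^ B j *
      ∏ k ∈ Finset.univ.erase j, (X - C (b k)) ^ B k :=
    (Finset.mul_prod_erase _ (fun j => (X - C (b j)) ^ B j) (Finset.mem_univ j)).symm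
  have h3 : (X - C (b j)) * derivative ((X - C (b j)) ^ B j) =
      C ((B j : ℕ) : K) * (X - C (b j)) ^ B j := by
    rcases Nat.eq_zero_or_pos (B j) with h0 | h0
    · simp [h0]
    · rw [derivative_pow]
      obtain ⟨m, hm⟩ : ∃ m, B j = m + 1 := ⟨B j - 1, by omega⟩
      rw [hm]
      simp only [Nat.add_sub_cancel, derivative_sub, derivative_X, derivative_C, sub_zero, mul_one]
      ring
  rw [h1, h2]
  calc (X - C (b j)) * (∏ k ∈ Finset.univ.erase j, (X - C (b k))) *
        ((∏ k ∈ Finset.univ.erase j, (X - C (b k)) ^ B k) * derivative ((X - C (b j)) ^ B j))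
      = ((X - C (b j)) * derivative ((X - C (b j)) ^ B j)) *
        (∏ k ∈ Finset.univ.erase j, (X - C (b k))) *
        (∏ k ∈ Finset.univ.erase j, (X - C (b k)) ^ B k) := by ring
    _ = _ := by rw [h3]; ring

open Classical in
lemma LL_compl (p : ℕ) [Fact p.Prime] [CharP K p] (b : ι → K) (A : ι → ℕ)
    (hA : ∀ j, 1 ≤ A j ∧ A j + 2 ≤ p) :
    LL b (fun j => p - 1 - A j) = - derivative (∏ j, (X - C (b j))) - LL b A := by
  have h1 : derivative (∏ j, (X - C (b j))) =
      ∑ j, ∏ k ∈ Finset.univ.erase j, (X - C (b k)) := by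
    rw [derivative_prod_finset]
    refine Finset.sum_congr rfl fun j _ => ?_
    simp
  rw [h1]
  unfold LL
  rw [← Finset.sum_neg_distrib, ← Finset.sum_sub_distrib]
  refine Finset.sum_congr rfl fun j _ => ?_
  have h2 : ((p - 1 - A j : ℕ) : K) = -1 - (A j : K) := by
    have := hA j
    have h3 : ((p - 1 - A j + 1 + A j : ℕ) : K) = 0 := by
      have : p - 1 - A j + 1 + A j = p := by omega
      rw [this]; exact CharP.cast_eq_zero K p
    push_cast at h3
    linear_combination h3
  rw [h2]
  simp only [map_sub, map_neg, map_one]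
  ring

lemma noTop_derivative (p : ℕ) [Fact p.Prime] [CharP K p] (Q : K[X]) : NoTop p (derivative Q) := by
  intro i
  rw [coeff_derivative]
  have hp : 1 ≤ p := (Fact.out : p.Prime).one_lt.le
  have h1 : ((i * p + (p - 1) : ℕ) : K) + 1 = 0 := by
    have h2 : ((i * p + (p - 1) + 1 : ℕ) : K) = 0 := by
      have : i * p + (p - 1) + 1 = (i + 1) * p := by
        have : p - 1 + 1 = p := by omega
        rw [add_assoc, this]; ring
      rw [this]; simp
    push_cast at h2 ⊢
    exact h2
  rw [h1, mul_zero]

open Classical in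
lemma pp_dvd (p : ℕ) [Fact p.Prime] [CharP K p] (b : ι → K) (hb : Function.Injective b)
    (A : ι → ℕ) (hA : ∀ j, A j < p) (R : K[X]) (hR : R ≠ 0)
    (h : (∏ j, (X - C (b j))) * derivative R = LL b A * R) : pp b A ∣ R := by
  unfold pp
  refine Finset.prod_dvd_of_coprime ?_ ?_
  · intro i _ j _ hij
    exact (pairwise_coprime_X_sub_C hb hij).pow
  · intro j _
    obtain ⟨R1, hR1, hnd⟩ := exists_eq_pow_rootMultiplicity_mul_and_not_dvd R hR (b j)
    set k := rootMultiplicity (b j) R with hk
    have hev : R1.eval (b j) ≠ 0 := by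
      intro h0
      exact hnd (dvd_iff_isRoot.mpr h0)
    have h1 : (∏ j, (X - C (b j))) = (X - C (b j)) * ∏ k ∈ Finset.univ.erase j, (X - C (b k)) :=
      (Finset.mul_prod_erase _ _ (Finset.mem_univ j)).symm
    set hj := ∏ k ∈ Finset.univ.erase j, (X - C (b k)) with hhj
    have hjev : hj.eval (b j) ≠ 0 := by
      rw [hhj, eval_prod, Finset.prod_ne_zero_iff]
      intro k hk
      simp only [eval_sub, eval_X, eval_C]
      exact sub_ne_zero.mpr fun h => (Finset.ne_of_mem_erase hk) (hb h).symm
    have hLev : (LL b A).eval (b j) = (A j : K) * hj.eval (b j) := by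
      unfold LL
      rw [eval_finsetSum, Finset.sum_eq_single j]
      · rw [eval_mul, eval_C]
      · intro i _ hij
        rw [eval_mul, eval_prod, Finset.prod_eq_zero (i := j)]
        · simp
        · exact Finset.mem_erase.mpr ⟨hij.symm, Finset.mem_univ _⟩
        · simp
      · intro h; exact absurd (Finset.mem_univ _) h
    have h3 : (X - C (b j)) * derivative ((X - C (b j)) ^ k) =
        C ((k : ℕ) : K) * (X - C (b j)) ^ k := by
      rcases Nat.eq_zero_or_pos k with h0 | h0
      · simp [h0]
      · rw [derivative_pow]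
        obtain ⟨m, hm⟩ : ∃ m, k = m + 1 := ⟨k - 1, by omega⟩
        rw [hm]
        simp only [Nat.add_sub_cancel, derivative_sub, derivative_X, derivative_C, sub_zero, mul_one]
        ring
    have h4 : (X - C (b j)) ^ k * (C ((k : ℕ) : K) * hj * R1 + (X - C (b j)) * hj * derivative R1) =
        (X - C (b j)) ^ k * (LL b A * R1) := by
      have h5 : (∏ j, (X - C (b j))) * derivative R = (X - C (b j)) ^ k *
          (C ((k : ℕ) : K) * hj * R1 + (X - C (b j)) * hj * derivative R1) := by
        rw [h1, hR1, derivative_mul]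
        calc (X - C (b j)) * hj * (derivative ((X - C (b j)) ^ k) * R1 +
              (X - C (b j)) ^ k * derivative R1)
            = ((X - C (b j)) * derivative ((X - C (b j)) ^ k)) * hj * R1 +
              (X - C (b j)) ^ k * ((X - C (b j)) * hj * derivative R1) := by ring
          _ = _ := by rw [h3]; ring
      rw [← h5, h, hR1]
      ring
    have h6 := mul_left_cancel₀ (pow_ne_zero k (X_sub_C_ne_zero (b j))) h4
    have h7 := congrArg (eval (b j)) h6
    simp only [eval_add, eval_mul, eval_C, eval_sub, eval_X, sub_self, zero_mul, add_zero, hLev] at h7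
    have h8 : (k : K) = (A j : K) := by
      have h9 : ((k : K) - (A j : K)) * (hj.eval (b j) * R1.eval (b j)) = 0 := by
        linear_combination h7
      rcases mul_eq_zero.mp h9 with h | h
      · exact sub_eq_zero.mp h
      · exact absurd h (mul_ne_zero hjev hev)
    have h10 : A j ≤ k := by
      have h11 := (CharP.natCast_eq_natCast K p).mp h8
      have h12 : k % p = A j % p := h11
      rw [Nat.mod_eq_of_lt (hA j)] at h12
      rw [← h12]
      exact Nat.mod_le _ _
    exact (pow_dvd_pow _ h10).trans ⟨R1, hR1⟩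

open Classical in
lemma LL_natDegree (b : ι → K) (A : ι → ℕ) : (LL b A).natDegree ≤ Fintype.card ι - 1 := by
  unfold LL
  refine natDegree_sum_le_of_forall_le _ _ fun j _ => ?_
  refine (natDegree_C_mul_le _ _).trans ?_
  rw [natDegree_prod_of_monic _ _ fun k _ => monic_X_sub_C _]
  simp

open Classical in
lemma LL_coeff (b : ι → K) (A : ι → ℕ) :
    (LL b A).coeff (Fintype.card ι - 1) = ((∑ j, A j : ℕ) : K) := by
  unfold LL
  rw [finsetSum_coeff, Nat.cast_sum]
  refine Finset.sum_congr rfl fun j _ => ?_
  rw [coeff_C_mul]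
  have h1 : (∏ k ∈ Finset.univ.erase j, (X - C (b k))).Monic :=
    monic_prod_of_monic _ _ fun k _ => monic_X_sub_C _
  have h2 : (∏ k ∈ Finset.univ.erase j, (X - C (b k))).natDegree = Fintype.card ι - 1 := by
    rw [natDegree_prod_of_monic _ _ fun k _ => monic_X_sub_C _]
    simp
  have h3 := h1.coeff_natDegree
  rw [h2] at h3
  rw [h3, mul_one]

lemma hh_natDegree (b : ι → K) : (∏ j, (X - C (b j))).natDegree = Fintype.card ι := by
  rw [natDegree_prod_of_monic _ _ fun k _ => monic_X_sub_C _]
  simp

lemma pp_natDegree (b : ι → K) (A : ι → ℕ) : (pp b A).natDegree = ∑ j, A j := by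
  unfold pp
  rw [natDegree_prod_of_monic _ _ fun k _ => (monic_X_sub_C _).pow _]
  refine Finset.sum_congr rfl fun j _ => ?_
  rw [(monic_X_sub_C (b j)).natDegree_pow]
  simp

lemma pp_ne (b : ι → K) (A : ι → ℕ) : pp b A ≠ 0 := by
  unfold pp
  exact (monic_prod_of_monic _ _ fun k _ => (monic_X_sub_C _).pow _).ne_zero

/-- the multiplier `T` -/
noncomputable def TT (p d : ℕ) (c : Fin d → K) : K[X] := ∑ a : Fin d, C (c a) * X ^ (p * (d - 1 - a))

lemma TT_deriv (p : ℕ) [Fact p.Prime] [CharP K p] (d : ℕ) (c : Fin d → K) :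
    derivative (TT p d c) = 0 := by
  unfold TT
  rw [derivative_sum]
  refine Finset.sum_eq_zero fun a _ => ?_
  rw [derivative_C_mul, derivative_X_pow]
  simp

lemma TT_natDegree (p d : ℕ) (c : Fin d → K) : (TT p d c).natDegree ≤ p * (d - 1) := by
  unfold TT
  refine natDegree_sum_le_of_forall_le _ _ fun a _ => ?_
  refine (natDegree_C_mul_X_pow_le _ _).trans ?_
  exact Nat.mul_le_mul_left _ (Nat.sub_le _ _)

lemma TT_ne (p : ℕ) (hp : 0 < p) (d : ℕ) (c : Fin d → K) (hc : c ≠ 0) : TT p d c ≠ 0 := by
  obtain ⟨a, ha⟩ := Function.ne_iff.mp hc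
  intro h
  apply ha
  have h1 := congrArg (fun Q => coeff Q (p * (d - 1 - a))) h
  simp only [TT, finsetSum_coeff, coeff_C_mul, coeff_X_pow, coeff_zero] at h1
  rw [Finset.sum_eq_single a] at h1
  · simpa using h1
  · intro a' _ haa
    rw [if_neg, mul_zero]
    intro h2
    apply haa
    have h3 := Nat.eq_of_mul_eq_mul_left hp h2
    have := a.2
    have := a'.2
    apply Fin.ext
    omega
  · intro h; exact absurd (Finset.mem_univ _) h

lemma G_coeff (p d : ℕ) (F : K[X]) (c : Fin d → K) (hc : Matrix.vecMul c (hw p d F) = 0)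
    (b : Fin d) : (X ^ ((b : ℕ) + 1) * (F * TT p d c)).coeff (p * d) = 0 := by
  have h1 := congrFun hc b
  rw [Pi.zero_apply] at h1
  rw [← h1]
  unfold TT
  simp only [Matrix.vecMul, dotProduct, hw, Matrix.of_apply]
  rw [Finset.mul_sum, Finset.mul_sum, finsetSum_coeff]
  refine Finset.sum_congr rfl fun a _ => ?_
  have h2 : X ^ ((b : ℕ) + 1) * (F * (C (c a) * X ^ (p * (d - 1 - (a : ℕ))))) =
      C (c a) * ((X ^ ((b : ℕ) + 1) * F) * X ^ (p * (d - 1 - (a : ℕ)))) := by ring
  have h3 : p * d = p * ((a : ℕ) + 1) + p * (d - 1 - (a : ℕ)) := by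
    rw [← mul_add]
    congr 1
    have := a.2
    omega
  rw [h2, coeff_C_mul, h3, coeff_mul_X_pow]

end DUALaux

open DUALaux in
theorem part_DUAL : S_DUAL := by
  intro K _ p _ _ ι _ b hb A hA hdet
  classical
  have hp : p.Prime := Fact.out
  have hp2 : 2 ≤ p := hp.two_le
  set S := ∑ j, A j with hS
  set d := (S - 1) / (p - 1) with hd
  set n := Fintype.card ι with hn
  -- `1 ≤ d`
  have hd1 : 1 ≤ d := by
    rcases Nat.eq_zero_or_pos d with h | h
    · rw [h] at hdet
      simp at hdet
    · exact h
  have hp1 : 0 < p - 1 := by omega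
  have hdS : d * (p - 1) ≤ S - 1 := Nat.div_mul_le_self _ _
  have hdS2 : S - 1 < (p - 1) * (d + 1) := Nat.lt_mul_div_succ _ hp1
  obtain ⟨q, hq⟩ : ∃ q, p = q + 1 := ⟨p - 1, by omega⟩
  have hq1 : p - 1 = q := by omega
  have hdq : 1 * q ≤ d * q := Nat.mul_le_mul_right q hd1
  rw [hq1] at hdS hdS2
  have hS1 : 1 ≤ S := by omega
  -- `ι` is nonempty, so `3 ≤ p`
  have hne : Nonempty ι := by
    by_contra h
    rw [not_nonempty_iff] at h
    have : S = 0 := by rw [hS]; simp
    omega
  have hn1 : 1 ≤ n := Fintype.card_pos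
  have hp3 : 3 ≤ p := by
    obtain ⟨j⟩ := hne
    have := hA j
    omega
  -- `S + S' = n q`
  set S' := ∑ j, (p - 1 - A j) with hS'
  have hSS : S + S' = n * q := by
    rw [hS, hS', ← Finset.sum_add_distrib, Finset.sum_congr rfl (g := fun _ => q)]
    · simp [hn]
    · intro j _
      have := hA j
      omega
  have hS'n : n ≤ S' := by
    rw [hS', hn, ← Finset.card_univ, Finset.card_eq_sum_ones]
    refine Finset.sum_le_sum fun j _ => ?_
    have := hA j
    omega
  have hSn : S + n ≤ n * q := by omega
  -- the left kernel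
  obtain ⟨c, hc0, hc⟩ := Matrix.exists_vecMul_eq_zero_iff.mpr hdet
  set F := pp b A with hF
  set h := ∏ j, (X - C (b j)) with hh
  set L := LL b A with hL
  have hhF : h * derivative F = L * F := hh_deriv b A
  set T := TT p d c with hT
  have hT0 : T ≠ 0 := TT_ne p (by omega) d c hc0
  have hT' : derivative T = 0 := TT_deriv p d c
  set G := F * T with hG
  have hG0 : G ≠ 0 := mul_ne_zero (pp_ne b A) hT0
  have hG' : h * derivative G = L * G := by
    rw [hG, derivative_mul, hT', mul_zero, add_zero, ← mul_assoc, hhF, mul_assoc]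
  have hGdeg : G.natDegree ≤ S + p * (d - 1) := by
    refine natDegree_mul_le.trans ?_
    rw [pp_natDegree]
    exact Nat.add_le_add_left (TT_natDegree p d c) _
  have hmon : (X ^ (p * d) : K[X]).Monic := monic_X_pow _
  set R := G /ₘ X ^ (p * d) with hR
  set r := G %ₘ X ^ (p * d) with hr
  have hGR : r + X ^ (p * d) * R = G := modByMonic_add_div G (X ^ (p * d))
  have hrcoeff : ∀ i, i < p * d → r.coeff i = G.coeff i := by
    intro i hi
    rw [← hGR, coeff_add, coeff_X_pow_mul', if_neg (by omega), add_zero]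
  have hrdeg : r.degree < ((p * d : ℕ) : WithBot ℕ) := by
    have := degree_modByMonic_lt G hmon
    rwa [degree_X_pow] at this
  have hrz : ∀ i, d * q ≤ i → r.coeff i = 0 := by
    intro i hi
    rcases Nat.lt_or_ge i (p * d) with h1 | h1
    · rw [hrcoeff i h1]
      have hpd : p * d = d * q + d := by rw [hq]; ring
      have hb' : p * d - i - 1 < d := by omega
      have h2 := G_coeff p d F c hc ⟨p * d - i - 1, hb'⟩
      rw [coeff_X_pow_mul', if_pos (by simp only; omega)] at h2
      have h3 : p * d - (((⟨p * d - i - 1, hb'⟩ : Fin d) : ℕ) + 1) = i := by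
        simp only
        omega
      rw [h3] at h2
      exact h2
    · exact coeff_eq_zero_of_degree_lt (lt_of_lt_of_le hrdeg (by exact_mod_cast h1))
  have hrnat : r.natDegree ≤ d * q - 1 := by
    rw [natDegree_le_iff_coeff_eq_zero]
    intro N hN
    exact hrz N (by omega)
  set V := h * derivative R - L * R with hV
  have hXp : derivative (X ^ (p * d) : K[X]) = 0 := by
    rw [derivative_X_pow]
    simp
  have hVr : X ^ (p * d) * V = -(h * derivative r - L * r) := by
    have h1 : h * derivative (r + X ^ (p * d) * R) = L * (r + X ^ (p * d) * R) := by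
      rw [hGR]; exact hG'
    rw [derivative_add, derivative_mul, hXp, zero_mul, zero_add] at h1
    rw [hV]
    linear_combination h1
  refine ⟨V, ?_, ?_, ?_⟩
  · -- `V ≠ 0`
    intro hV0
    have hVR : h * derivative R = L * R := by
      rw [hV] at hV0
      exact sub_eq_zero.mp hV0
    have hR0 : R = 0 := by
      by_contra hR0
      have h1 := pp_dvd p b hb A (fun j => by have := hA j; omega) R hR0 hVR
      have h2 := natDegree_le_of_dvd h1 hR0
      rw [pp_natDegree, hR, natDegree_divByMonic _ hmon, natDegree_X_pow] at h2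
      have h3 : p * (d - 1) < p * d := Nat.mul_lt_mul_of_pos_left (by omega) (by omega)
      omega
    rw [hR0, mul_zero, add_zero] at hGR
    have h1 : F ∣ G := ⟨T, hG⟩
    have h2 := natDegree_le_of_dvd h1 hG0
    rw [hF, pp_natDegree, ← hGR] at h2
    omega
  · -- the degree of `V`
    rw [degree_lt_iff_coeff_zero]
    intro i hi
    have hh0 : h.natDegree ≤ n := (hh_natDegree b).le
    have hL0 : L.natDegree ≤ n - 1 := LL_natDegree b A
    have hr'0 : (derivative r).natDegree ≤ d * q - 1 - 1 :=
      (natDegree_derivative_le r).trans (Nat.sub_le_sub_right hrnat 1)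
    have hdq2 : 2 ≤ d * q := by omega
    have hcoef : ∀ k, n - 1 + (d * q - 1) < k → (h * derivative r - L * r).coeff k = 0 := by
      intro k hk
      rw [coeff_sub, coeff_eq_zero_of_natDegree_lt, coeff_eq_zero_of_natDegree_lt, sub_zero]
      · exact lt_of_le_of_lt (natDegree_mul_le.trans (Nat.add_le_add hL0 hrnat)) hk
      · exact lt_of_le_of_lt (natDegree_mul_le.trans (Nat.add_le_add hh0 hr'0)) (by omega)
    have htop : (h * derivative r - L * r).coeff (n - 1 + (d * q - 1)) =
        (((d * q : ℕ) : K) - 1 - (S : K)) * r.coeff (d * q - 1) := by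
      rw [coeff_sub, coeff_mul_add_eq_of_natDegree_le hL0 hrnat, LL_coeff]
      have h1 : n - 1 + (d * q - 1) = n + (d * q - 1 - 1) := by omega
      rw [h1, coeff_mul_add_eq_of_natDegree_le hh0 hr'0]
      have h2 : h.coeff n = 1 := by
        have h3 : h.Monic := monic_prod_of_monic _ _ fun k _ => monic_X_sub_C _
        have h4 := h3.coeff_natDegree
        rwa [hh_natDegree b] at h4
      rw [h2, coeff_derivative]
      have h5 : d * q - 1 - 1 + 1 = d * q - 1 := by omega
      have h6 : ((d * q - 1 - 1 : ℕ) : K) + 1 = ((d * q : ℕ) : K) - 1 := by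
        have h7 : ((d * q - 1 - 1 + 1 + 1 : ℕ) : K) = ((d * q : ℕ) : K) := by
          congr 1; omega
        push_cast at h7 ⊢
        linear_combination h7
      rw [h5, h6]
      ring
    have hVi : V.coeff i = -(h * derivative r - L * r).coeff (i + p * d) := by
      rw [← coeff_neg, ← hVr, mul_comm, coeff_mul_X_pow]
    rw [hVi, neg_eq_zero]
    -- the two cases
    have hpd : p * d = d * q + d := by rw [hq]; ring
    rcases Nat.lt_or_ge S ((d + 1) * q) with hlt | hge
    · -- `d' = n - 1 - d`
      have hnd : d < n := by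
        by_contra hcon
        have h1 : n * q ≤ d * q := Nat.mul_le_mul_right q (by omega)
        omega
      obtain ⟨e, he⟩ : ∃ e, n = d + 1 + e := ⟨n - d - 1, by omega⟩
      have h1 : n * q = (d + 1) * q + e * q := by rw [he]; ring
      have h2 : e ≤ (S' - 1) / (p - 1) := by
        rw [Nat.le_div_iff_mul_le hp1, hq1]
        omega
      apply hcoef
      omega
    · have hS1' : S = (d + 1) * q := by
        have : q * (d + 1) = (d + 1) * q := mul_comm _ _
        omega
      have hnd : d + 1 < n := by
        by_contra hcon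
        have h1 : n * q ≤ (d + 1) * q := Nat.mul_le_mul_right q (by omega)
        omega
      obtain ⟨e, he⟩ : ∃ e, n = d + 2 + e := ⟨n - d - 2, by omega⟩
      have h1 : n * q = (d + 1) * q + q + e * q := by rw [he]; ring
      have h2 : e ≤ (S' - 1) / (p - 1) := by
        rw [Nat.le_div_iff_mul_le hp1, hq1]
        omega
      rcases Nat.lt_or_ge (n - 1 + (d * q - 1)) (i + p * d) with h3 | h3
      · exact hcoef _ h3
      · have h4 : i + p * d = n - 1 + (d * q - 1) := by omega
        rw [h4, htop, hS1']
        have h5 : (q : K) = -1 := by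
          have h6 : ((q + 1 : ℕ) : K) = 0 := by rw [← hq]; exact CharP.cast_eq_zero K p
          push_cast at h6
          linear_combination h6
        push_cast
        rw [h5]
        ring
  · -- `NoTop`
    have hFc : h * derivative (pp b (fun j => p - 1 - A j)) =
        (-derivative h - L) * pp b (fun j => p - 1 - A j) := by
      rw [hh, hh_deriv, LL_compl p b A hA]
    have h1 : V * pp b (fun j => p - 1 - A j) =
        derivative (h * pp b (fun j => p - 1 - A j) * R) := by
      rw [derivative_mul, derivative_mul, hV]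
      linear_combination (-R) * hFc
    rw [h1]
    exact noTop_derivative p _

end Pool.Agent.N780.CC
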