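import Mathlib
import Pool.Agent.N780.CC.Stm
import Pool.Agent.Y218.HW

set_option autoImplicit false

/-!
The blocks of the generic member of a family with one moving branch point are invertible.
-/

namespace Pool.Agent.N780.CC

open Polynomial
open Pool.Agent.Y218.HW (Dx Dx_mul Dx_sub Dx_X Dx_C Dx_pow coeff_Dx degree_Dx_le)

/-- singular blocks have kernels -/
theorem sing_iff (hK : S_KER) {R : Type} [CommRing R] [IsDomain R] (p d : ℕ) (hp : 2 ≤ p) (F : R[X])
    (hF : F.natDegree ≤ (d + 1) * (p - 1)) :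
    (hw p d F).det = 0 ↔ ∃ U : R[X], U ≠ 0 ∧ U.degree < (d : WithBot ℕ) ∧ NoTop p (U * F) := by
  rw [← Matrix.exists_mulVec_eq_zero_iff]
  constructor
  · rintro ⟨u, hu, h⟩
    refine ⟨∑ j, C (u j) * X ^ (j : ℕ), ?_, ?_, (hK R p d hp F hF u).1 h⟩
    · intro h0
      apply hu
      funext j
      have h1 := congrArg (fun f => f.coeff (j : ℕ)) h0
      simp only [finsetSum_coeff, coeff_C_mul, coeff_X_pow, coeff_zero] at h1
      rw [Finset.sum_eq_single j] at h1
      · simpa using h1
      · intro i _ hi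
        rw [if_neg (fun h => hi (Fin.ext h.symm)), mul_zero]
      · intro h; exact absurd (Finset.mem_univ j) h
    · rw [degree_lt_iff_coeff_zero]
      intro n hn
      rw [finsetSum_coeff]
      refine Finset.sum_eq_zero fun j _ => ?_
      rw [coeff_C_mul, coeff_X_pow, if_neg (by have := j.2; omega), mul_zero]
  · rintro ⟨U, hU0, hU, h⟩
    have e : (∑ j : Fin d, C (U.coeff j) * X ^ (j : ℕ)) = U := by
      ext n
      rw [finsetSum_coeff]
      simp only [coeff_C_mul, coeff_X_pow]
      by_cases hn : n < d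
      · rw [Finset.sum_eq_single ⟨n, hn⟩]
        · simp
        · intro i _ hi
          rw [if_neg (fun h => hi (Fin.ext h.symm)), mul_zero]
        · intro h; exact absurd (Finset.mem_univ _) h
      · rw [(degree_lt_iff_coeff_zero _ _).1 hU n (by omega)]
        refine Finset.sum_eq_zero fun j _ => ?_
        rw [if_neg (by have := j.2; omega), mul_zero]
    refine ⟨fun j => U.coeff j, ?_, (hK R p d hp F hF _).2 (by rw [e]; exact h)⟩
    intro h0
    apply hU0
    rw [← e]
    refine Finset.sum_eq_zero fun j _ => ?_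
    rw [show U.coeff (j : ℕ) = 0 from congrFun h0 j, C_0, zero_mul]

theorem hw_map {R S : Type} [CommRing R] [CommRing S] (φ : R →+* S) (p d : ℕ) (F : R[X]) :
    hw p d (F.map φ) = (hw p d F).map φ := by
  ext i j
  simp only [hw, Matrix.of_apply, Matrix.map_apply]
  rw [← map_X φ, ← Polynomial.map_pow, ← Polynomial.map_mul, coeff_map]

theorem det_map {R S : Type} [CommRing R] [CommRing S] (φ : R →+* S) (p d : ℕ) (F : R[X]) :
    (hw p d (F.map φ)).det = φ (hw p d F).det := by
  rw [hw_map, RingHom.map_det]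
  rfl

theorem pp_map {R S ι : Type} [CommRing R] [CommRing S] [Fintype ι] (φ : R →+* S) (b : ι → R)
    (A : ι → ℕ) : (pp b A).map φ = pp (fun j => φ (b j)) A := by
  unfold pp
  rw [Polynomial.map_prod]
  simp

theorem pp_option {R ι : Type} [CommRing R] [Fintype ι] (b : Option ι → R) (A : Option ι → ℕ) :
    pp b A = (X - C (b none)) ^ A none * pp (fun j => b (some j)) (fun j => A (some j)) := by
  unfold pp
  rw [Fintype.prod_option]

theorem natDegree_pp_le {R ι : Type} [CommRing R] [Fintype ι] (b : ι → R) (A : ι → ℕ) :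
    (pp b A).natDegree ≤ ∑ j, A j := by
  unfold pp
  refine (natDegree_prod_le _ _).trans (Finset.sum_le_sum fun j _ => ?_)
  refine (natDegree_pow_le).trans ?_
  have := natDegree_X_sub_C_le (b j)
  calc A j * (X - C (b j)).natDegree ≤ A j * 1 := Nat.mul_le_mul_left _ this
    _ = A j := mul_one _

theorem natDegree_F_le {R ι : Type} [CommRing R] [Fintype ι] (t : R) (A0 : ℕ) (b : ι → R)
    (A : ι → ℕ) : ((X - C t) ^ A0 * pp b A).natDegree ≤ A0 + ∑ j, A j := by
  refine (natDegree_mul_le).trans (Nat.add_le_add ?_ (natDegree_pp_le b A))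
  refine (natDegree_pow_le).trans ?_
  have := natDegree_X_sub_C_le t
  calc A0 * (X - C t).natDegree ≤ A0 * 1 := Nat.mul_le_mul_left _ this
    _ = A0 := mul_one _

theorem Dx_pp {R ι : Type} [CommRing R] [Fintype ι] (D : Derivation ℤ R R) (b : ι → R)
    (hb : ∀ j, D (b j) = 0) (A : ι → ℕ) : Dx D (pp b A) = 0 := by
  classical
  unfold pp
  induction (Finset.univ : Finset ι) using Finset.induction_on with
  | empty =>
    rw [Finset.prod_empty, ← C_1, Dx_C]; simp
  | insert a s ha ih =>
    rw [Finset.prod_insert ha, Dx_mul, ih, Dx_pow, Dx_sub, Dx_X, Dx_C, hb a]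
    simp

/-- the derivative of an element of the kernel -/
theorem Dx_ker {R ι : Type} [CommRing R] [Fintype ι] (D : Derivation ℤ R R) (b : ι → R)
    (hb : ∀ j, D (b j) = 0) (A : ι → ℕ) (t : R) (ht : D t = 1) (A0 : ℕ) (hA0 : 1 ≤ A0) (U : R[X]) :
    Dx D (U * ((X - C t) ^ A0 * pp b A)) =
      ((X - C t) * Dx D U - C (A0 : R) * U) * ((X - C t) ^ (A0 - 1) * pp b A) := by
  obtain ⟨M, rfl⟩ : ∃ M, A0 = M + 1 := ⟨A0 - 1, by omega⟩
  rw [Dx_mul, Dx_mul, Dx_pow, Dx_sub, Dx_X, Dx_C, ht, Dx_pp D b hb]
  simp only [Nat.add_sub_cancel]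
  have h2 : (C ((M + 1 : ℕ) : R) : R[X]) = ((M + 1 : ℕ) : R[X]) := by simp
  rw [pow_succ, h2, C_1]
  ring

theorem noTop_map {R S : Type} [CommRing R] [CommRing S] (φ : R →+* S) (p : ℕ) (P : R[X])
    (h : NoTop p P) : NoTop p (P.map φ) := fun i => by rw [coeff_map, h i, map_zero]

/-- arithmetic of the dimensions -/
theorem dims {q n S S' : ℕ} (_ : 1 ≤ q) (hS : 1 ≤ S) (hS' : 1 ≤ S') (h : S + S' = q * (n + 1)) :
    (S - 1) / q + (S' - 1) / q ≤ n := by
  have h1 := Nat.div_mul_le_self (S - 1) q
  have h2 := Nat.div_mul_le_self (S' - 1) q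
  have h3 : ((S - 1) / q + (S' - 1) / q) * q < (n + 1) * q := by
    rw [add_mul]
    have : q * (n + 1) = (n + 1) * q := mul_comm _ _
    omega
  have h4 := lt_of_mul_lt_mul_right h3 (Nat.zero_le q)
  omega

theorem le_dim {q S : ℕ} (hq : 1 ≤ q) : S ≤ ((S - 1) / q + 1) * q := by
  have h1 := Nat.lt_div_mul_add (a := S - 1) (by omega : 0 < q)
  rw [add_mul, one_mul]
  omega

/-- the general form: a domain with a derivation which moves only the point `t` -/
theorem core (hK : S_KER) (hD : S_DUAL) (hP : S_PAIR) (hI : S_IND) {R : Type} [CommRing R] [IsDomain R]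
    (p : ℕ) [hp : Fact p.Prime] [CharP R p] {ι : Type} [Fintype ι] (D : Derivation ℤ R R) (B : ι → R)
    (hDB : ∀ j, D (B j) = 0) (hB : Function.Injective B) (t : R) (hDt : D t = 1)
    (A : ι → ℕ) (hA : ∀ j, 1 ≤ A j ∧ A j + 2 ≤ p) (A0 : ℕ) (hA0 : 1 ≤ A0 ∧ A0 + 2 ≤ p)
    (hd : (A0 + ∑ j, A j - 1) / (p - 1) + A0 ≤ p)
    (hd' : ((p - 1 - A0) + ∑ j, (p - 1 - A j) - 1) / (p - 1) ≤ A0 + 1) :
    (hw p ((A0 + ∑ j, A j - 1) / (p - 1)) ((X - C t) ^ A0 * pp B A)).det ≠ 0 := by
  classical
  intro hdet
  have hp2 : 2 ≤ p := hp.out.two_le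
  have hq : 1 ≤ p - 1 := by omega
  let K := FractionRing R
  let φ : R →+* K := algebraMap R K
  have hφ : Function.Injective φ := IsFractionRing.injective R K
  have hcK : CharP K p := charP_of_injective_algebraMap hφ p
  obtain ⟨d, hdd⟩ : ∃ d, d = (A0 + ∑ j, A j - 1) / (p - 1) := ⟨_, rfl⟩
  rw [← hdd] at hd hdet
  set A' : ι → ℕ := fun j => p - 1 - A j with hA'
  set A0' : ℕ := p - 1 - A0 with hA0'
  obtain ⟨d', hdd'⟩ : ∃ d', d' = (A0' + ∑ j, A' j - 1) / (p - 1) := ⟨_, rfl⟩
  rw [← hdd'] at hd'
  have hsum : A0 + ∑ j, A j + (A0' + ∑ j, A' j) = (p - 1) * (Fintype.card ι + 1) := by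
    have h1 : ∑ j, A j + ∑ j, A' j = (p - 1) * Fintype.card ι := by
      rw [← Finset.sum_add_distrib, Finset.sum_congr rfl (fun j _ =>
        (show A j + A' j = p - 1 by have := hA j; simp only [hA']; omega)), Finset.sum_const,
        Finset.card_univ, smul_eq_mul, mul_comm]
    rw [mul_add, mul_one]
    omega
  have hdims : d + d' ≤ Fintype.card ι := by
    rw [hdd, hdd']
    exact dims hq (by omega) (by omega) hsum
  -- the two spaces
  have hF : ((X - C t) ^ A0 * pp B A).natDegree ≤ (d + 1) * (p - 1) := by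
    rw [hdd]
    exact (natDegree_F_le t A0 B A).trans (le_dim hq)
  have hF' : ((X - C t) ^ A0' * pp B A').natDegree ≤ (d' + 1) * (p - 1) := by
    rw [hdd']
    exact (natDegree_F_le t A0' B A').trans (le_dim hq)
  have hW := (sing_iff hK p d hp2 _ hF).1 hdet
  have hBt : ∀ j, φ (B j) ≠ φ t := by
    intro j h
    have h1 := hφ h
    have h2 := hDB j
    rw [h1, hDt] at h2
    exact one_ne_zero h2
  have hBinj : Function.Injective fun j => φ (B j) := by
    intro i j h
    exact hB (hφ h)
  have hW' : ∃ V : R[X], V ≠ 0 ∧ V.degree < (d' : WithBot ℕ) ∧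
      NoTop p (V * ((X - C t) ^ A0' * pp B A')) := by
    rw [← sing_iff hK p d' hp2 _ hF']
    apply hφ
    rw [map_zero, ← det_map]
    let bO : Option ι → K := fun o => o.elim (φ t) (fun j => φ (B j))
    let AO : Option ι → ℕ := fun o => o.elim A0 A
    have hbO : Function.Injective bO := by
      intro x y h
      match x, y, h with
      | none, none, _ => rfl
      | some i, some j, h => exact congrArg some (hBinj h)
      | none, some j, h => exact absurd h.symm (hBt j)
      | some i, none, h => exact absurd h (hBt i)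
    have e1 : ∑ j, AO j = A0 + ∑ j, A j := by rw [Fintype.sum_option]; rfl
    have e2 : ∑ j, (p - 1 - AO j) = A0' + ∑ j, A' j := by rw [Fintype.sum_option]; rfl
    have e3 : pp bO AO = ((X - C t) ^ A0 * pp B A).map φ := by
      rw [pp_option, Polynomial.map_mul, pp_map, Polynomial.map_pow, Polynomial.map_sub, map_X,
        map_C]
      rfl
    have e4 : pp bO (fun o => p - 1 - AO o) = ((X - C t) ^ A0' * pp B A').map φ := by
      rw [pp_option, Polynomial.map_mul, pp_map, Polynomial.map_pow, Polynomial.map_sub, map_X,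
        map_C]
      rfl
    have h1 := hD K p (Option ι) bO hbO AO (by
      intro o
      match o with
      | none => exact hA0
      | some j => exact hA j) (by rw [e1, e3, det_map, ← hdd, hdet, map_zero])
    rw [e2, e4, ← hdd'] at h1
    exact (sing_iff hK p d' hp2 _ ((natDegree_map_le).trans hF')).2 h1
  -- the pairing
  have hpair : ∀ U V : R[X], U.degree < (d : WithBot ℕ) → NoTop p (U * ((X - C t) ^ A0 * pp B A)) →
      V.degree < (d' : WithBot ℕ) → NoTop p (V * ((X - C t) ^ A0' * pp B A')) →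
      U.eval t * V.eval t = 0 := by
    intro U V hU hU' hV hV'
    obtain ⟨U1, hU1⟩ : ∃ U1 : R[X], U1 = (X - C t) * Dx D U - C (A0 : R) * U := ⟨_, rfl⟩
    have h1 : NoTop p (U1 * ((X - C t) ^ (A0 - 1) * pp B A)) := by
      rw [hU1, ← Dx_ker D B hDB A t hDt A0 hA0.1 U]
      intro i
      rw [coeff_Dx, hU' i, map_zero]
    have hU1d : U1.natDegree ≤ d := by
      by_cases hd0 : d = 0
      · have : U = 0 := by
          rw [hd0] at hU
          simpa using hU
        rw [hU1, this]
        have : Dx D (0 : R[X]) = 0 := by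
          ext1 n
          rw [coeff_Dx]; simp
        rw [this]; simp
      have h2 : U.natDegree < d := by
        by_cases h0 : U = 0
        · rw [h0, natDegree_zero]; exact Nat.pos_of_ne_zero hd0
        · exact (natDegree_lt_iff_degree_lt h0).2 hU
      have h3 : (Dx D U).natDegree < d := by
        by_cases h0 : Dx D U = 0
        · rw [h0, natDegree_zero]; exact Nat.pos_of_ne_zero hd0
        · exact (natDegree_lt_iff_degree_lt h0).2 (lt_of_le_of_lt (degree_Dx_le D U) hU)
      rw [hU1]
      refine (natDegree_sub_le _ _).trans (max_le ?_ ?_)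
      · refine natDegree_mul_le.trans ?_
        have := natDegree_X_sub_C_le t
        omega
      · refine natDegree_mul_le.trans ?_
        rw [natDegree_C]
        omega
    have h2 := hP K p ι (fun j => φ (B j)) hBinj A hA (φ t) hBt A0 hA0 d d' hdims (U1.map φ)
      (V.map φ) (natDegree_map_le.trans hU1d) (lt_of_le_of_lt degree_map_le hV) (by
        have := noTop_map φ p _ h1
        rw [Polynomial.map_mul, Polynomial.map_mul, pp_map, Polynomial.map_pow, Polynomial.map_sub,
          map_X, map_C] at this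
        exact this) (by
        have := noTop_map φ p _ hV'
        rw [Polynomial.map_mul, Polynomial.map_mul, pp_map, Polynomial.map_pow, Polynomial.map_sub,
          map_X, map_C] at this
        exact this)
    rw [eval_map_apply, eval_map_apply, ← map_mul] at h2
    have h3 : U1.eval t * V.eval t = 0 := hφ (h2.trans (map_zero φ).symm)
    have h4 : U1.eval t = -((A0 : R) * U.eval t) := by
      rw [hU1]; simp
    rw [h4] at h3
    have h5 : (A0 : R) ≠ 0 := by
      intro h0
      have := (CharP.cast_eq_zero_iff R p A0).1 h0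
      have := Nat.le_of_dvd (by omega) this
      omega
    rcases mul_eq_zero.1 h3 with h6 | h6
    · rcases mul_eq_zero.1 (neg_eq_zero.1 h6) with h7 | h7
      · exact absurd h7 h5
      · rw [h7, zero_mul]
    · rw [h6, mul_zero]
  by_cases hall : ∀ U : R[X], U.degree < (d : WithBot ℕ) →
      NoTop p (U * ((X - C t) ^ A0 * pp B A)) → U.eval t = 0
  · obtain ⟨U, hU0, hU, hU'⟩ := hW
    exact hU0 (hI R p D ι B hDB t hDt A A0 hA0.1 d hd hall U hU hU')
  · push Not at hall
    obtain ⟨U, hU, hU', hUt⟩ := hall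
    obtain ⟨V, hV0, hV, hV'⟩ := hW'
    refine hV0 (hI R p D ι B hDB t hDt A' A0' (by omega) d' (by omega) ?_ V hV hV')
    intro V' h1 h2
    rcases mul_eq_zero.1 (hpair U V' hU hU' h1 h2) with h3 | h3
    · exact absurd h3 hUt
    · exact h3

theorem part_GEN (hK : S_KER) (hD : S_DUAL) (hP : S_PAIR) (hI : S_IND) : S_GEN := by
  intro k _ p hp _ ι _ b hb A hA A0 hA0 hd hd'
  exact core hK hD hP hI p ((Polynomial.derivative' (R := k)).restrictScalars ℤ) (fun j => C (b j))
    (fun j => by
      change Polynomial.derivative (C (b j) : k[X]) = 0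
      exact derivative_C)
    (fun i j h => hb (C_injective h)) X
    (by
      change Polynomial.derivative (X : k[X]) = 1
      exact derivative_X) A hA A0 hA0 hd hd'

end Pool.Agent.N780.CC
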