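import Mathlib
import Pool.Agent.N780.CC.Stm

set_option autoImplicit false

/-!
From positive exponents to the family of curves.
-/

namespace Pool.Agent.N780.CC

open Polynomial

lemma genz_hw_map {R S : Type*} [CommRing R] [CommRing S] (p d : ℕ) (φ : R →+* S) (F : R[X]) :
    φ (hw p d F).det = (hw p d (F.map φ)).det := by
  rw [RingHom.map_det]
  congr 1
  ext i j
  change φ ((X ^ ((j : ℕ) + 1) * F).coeff (p * ((i : ℕ) + 1))) =
    (X ^ ((j : ℕ) + 1) * (F.map φ)).coeff (p * ((i : ℕ) + 1))
  rw [← map_X φ, ← Polynomial.map_pow, ← Polynomial.map_mul, coeff_map]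

lemma genz_fam_map {k σ : Type*} [Field k] {n : ℕ} (s : σ) (l : Fin n → k) (a : Fin n → ℕ)
    (a0 e : ℕ) :
    (fam s l a a0 e).map (MvPolynomial.eval₂Hom (C : k →+* k[X]) (fun _ : σ => X)) =
      (if e = a0 then X - C (X : k[X]) else 1) * ∏ j with a j = e, (X - C (C (l j))) := by
  unfold fam
  rw [Polynomial.map_mul, Polynomial.map_prod]
  congr 1
  · split_ifs <;> simp
  · simp

lemma genz_prod {S : Type*} [CommRing S] (m n : ℕ) (a0 : ℕ) (ha0 : a0 < m) (a : Fin n → ℕ)
    (ha : ∀ j, a j < m) (x : S) (y : Fin n → S) (h : ℕ → ℕ) :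
    ∏ e ∈ Finset.range m, ((if e = a0 then x else 1) * ∏ j with a j = e, y j) ^ h e =
      x ^ h a0 * ∏ j, y j ^ h (a j) := by
  classical
  simp_rw [mul_pow]
  rw [Finset.prod_mul_distrib]
  congr 1
  · rw [Finset.prod_eq_single a0]
    · simp
    · intro b _ hb
      simp [hb]
    · intro hb
      exact absurd (Finset.mem_range.2 ha0) hb
  · rw [← Finset.prod_fiberwise_of_maps_to (s := Finset.univ) (t := Finset.range m) (g := a)
      (fun j _ => Finset.mem_range.2 (ha j))]
    refine Finset.prod_congr rfl fun e _ => ?_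
    rw [← Finset.prod_pow]
    refine Finset.prod_congr rfl fun j hj => ?_
    rw [(Finset.mem_filter.1 hj).2]

theorem part_GENZ (h : S_GEN) : S_GENZ := by
  classical
  intro k _ p _ _ σ s m n i a0 hm hmp hmn hi him ha0 hcop l hl a ha
  have hp : p.Prime := Fact.out
  obtain ⟨q, hq⟩ := hmp
  have hm0 : 0 < m := by omega
  have hqdiv : (p - 1) / m = q := by rw [hq, Nat.mul_div_cancel_left _ hm0]
  rw [hqdiv]
  have hp2 := hp.two_le
  -- bound on q
  have hnq : n + 1 ≤ q := by
    by_contra hcon
    have h1 : q ≤ n := by omega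
    have h2 : m * q ≤ m * n := Nat.mul_le_mul_left _ h1
    have h3 : m * (n + 2) = m * n + 2 * m := by ring
    omega
  have hq1 : 1 ≤ q := by omega
  -- remainders
  set r : ℕ → ℕ := fun e => i * e % m with hr
  have hrlt : ∀ e, r e < m := fun e => Nat.mod_lt _ hm0
  have hr0 : 1 ≤ r a0 := by
    by_contra hcon
    have h1 : i * a0 % m = 0 := by
      have : r a0 = 0 := by omega
      exact this
    have h2 : m ∣ i * a0 := Nat.dvd_of_mod_eq_zero h1
    have h3 : m ∣ i := (Nat.Coprime.dvd_of_dvd_mul_right hcop.symm h2)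
    have h4 := Nat.le_of_dvd (by omega) h3
    omega
  have hrq : ∀ e, r e * q + q ≤ p - 1 := by
    intro e
    have h1 : (r e + 1) * q ≤ m * q := Nat.mul_le_mul_right _ (hrlt e)
    rw [hq]
    linarith [add_mul (r e) 1 q]
  let ι := {j : Fin n // r (a j) ≠ 0}
  have hsum : ∑ j : ι, r (a j.1) * q = (∑ j, r (a j)) * q := by
    rw [Finset.sum_mul]
    rw [← Finset.sum_subtype (Finset.univ.filter fun j : Fin n => r (a j) ≠ 0)
      (fun x => by simp) (fun j => r (a j) * q)]
    refine Finset.sum_filter_of_ne ?_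
    intro x _ hx hx0
    exact hx (by rw [hx0, zero_mul])
  have hcard : Fintype.card ι ≤ n :=
    (Fintype.card_subtype_le (fun j : Fin n => r (a j) ≠ 0)).trans_eq (Fintype.card_fin n)
  have hsumr : ∑ j, r (a j) ≤ n * (m - 1) := by
    have := Finset.sum_le_card_nsmul (Finset.univ : Finset (Fin n)) (fun j => r (a j)) (m - 1)
      (fun j _ => by have := hrlt (a j); omega)
    simpa using this
  have hdim : (r a0 * q + ∑ j : ι, r (a j.1) * q - 1) / (p - 1) = dim m i a0 a := by
    rw [hsum, ← add_mul, hq]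
    unfold dim
    change ((r a0 + ∑ j, r (a j)) * q - 1) / (m * q) = (r a0 + ∑ j, r (a j) - 1) / m
    set S := r a0 + ∑ j, r (a j) with hS
    have hS1 : 1 ≤ S := by omega
    rw [Nat.mul_comm m q, ← Nat.div_div_eq_div_mul]
    congr 1
    obtain ⟨S', hS'⟩ := Nat.exists_eq_add_of_le' hS1
    rw [hS']
    have h1 : (S' + 1) * q - 1 = S' * q + (q - 1) := by
      have : (S' + 1) * q = S' * q + q := by ring
      omega
    rw [h1, Nat.add_sub_cancel, Nat.mul_comm, Nat.mul_add_div (by omega),
      Nat.div_eq_of_lt (by omega)]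
    rfl
  have hdn : dim m i a0 a ≤ n := by
    unfold dim
    change (r a0 + ∑ j, r (a j) - 1) / m ≤ n
    have h1 : r a0 + ∑ j, r (a j) - 1 < m * (n + 1) := by
      have h2 := hrlt a0
      have h3 : n * (m - 1) ≤ n * m := Nat.mul_le_mul_left _ (by omega)
      have h4 : m * (n + 1) = n * m + m := by ring
      omega
    have := Nat.div_lt_of_lt_mul h1
    omega
  have key := h k p ι (fun j => l j.1) (fun x y hxy => Subtype.ext (hl hxy))
    (fun j => r (a j.1) * q)
    (fun j => by
      have h1 : 1 ≤ r (a j.1) := Nat.one_le_iff_ne_zero.2 j.2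
      have h2 := hrq (a j.1)
      have h3 : 1 * 1 ≤ r (a j.1) * q := Nat.mul_le_mul h1 hq1
      omega)
    (r a0 * q)
    (by
      have h2 := hrq a0
      have h3 : 1 * 1 ≤ r a0 * q := Nat.mul_le_mul hr0 hq1
      omega)
    (by
      rw [hdim]
      have h2 := hrq a0
      omega)
    (by
      have h2 : ∑ j : ι, (p - 1 - r (a j.1) * q) ≤ n * (p - 1) := by
        have := Finset.sum_le_card_nsmul (Finset.univ : Finset ι)
          (fun j => (p - 1 - r (a j.1) * q)) (p - 1) (fun j _ => Nat.sub_le _ _)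
        simp only [Finset.card_univ, smul_eq_mul] at this
        exact this.trans (Nat.mul_le_mul_right _ hcard)
      have h3 : q ≤ r a0 * q := Nat.le_mul_of_pos_left _ hr0
      have h4 : p - 1 - r a0 * q + ∑ j : ι, (p - 1 - r (a j.1) * q) - 1 < (p - 1) * (n + 1) := by
        have h5 : (p - 1) * (n + 1) = n * (p - 1) + (p - 1) := by ring
        have h6 := hrq a0
        omega
      have h5 := Nat.div_lt_of_lt_mul h4
      omega)
  rw [hdim] at key
  intro hzero
  apply key
  have h1 : (∏ e ∈ Finset.range m, fam s l a a0 e ^ (i * e % m * q)).map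
      (MvPolynomial.eval₂Hom (C : k →+* k[X]) (fun _ : σ => X)) =
      (X - C X) ^ (r a0 * q) * pp (fun j : ι => C (l j.1)) (fun j => r (a j.1) * q) := by
    rw [Polynomial.map_prod]
    simp_rw [Polynomial.map_pow, genz_fam_map]
    rw [genz_prod m n a0 ha0 a ha (X - C X) (fun j => X - C (C (l j)))
      (fun e => i * e % m * q)]
    congr 1
    unfold pp
    rw [← Finset.prod_subtype (Finset.univ.filter fun j : Fin n => r (a j) ≠ 0)
      (fun x => by simp) (fun j => (X - C (C (l j)) : k[X][X]) ^ (r (a j) * q))]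
    symm
    refine Finset.prod_filter_of_ne ?_
    intro x _ hx hx0
    apply hx
    rw [hx0, zero_mul, pow_zero]
  rw [← h1, ← genz_hw_map, hzero, map_zero]

end Pool.Agent.N780.CC
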