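import Mathlib
import Pool.Agent.N780.CC.Stm

/-!
Project CC (helper780), part IND (subtask 8238), by helper42: induction on the order of vanishing at
the moving branch point. The derivation on the coefficients and the proof follow
`Pool/Agent/Y218/HW.lean` of the starting library.
-/

set_option autoImplicit false

open Polynomial

namespace Pool.Agent.N780.CC.IND

section deriv

variable {R : Type*} [CommRing R] (D : Derivation ℤ R R)

/-- a derivation applied to the coefficients -/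
noncomputable def Dx (P : R[X]) : R[X] := P.sum fun n a => monomial n (D a)

lemma coeff_Dx (P : R[X]) (n : ℕ) : (Dx D P).coeff n = D (P.coeff n) := by
  unfold Dx
  rw [Polynomial.sum_def, finsetSum_coeff]
  simp only [coeff_monomial]
  rw [Finset.sum_ite_eq']
  split_ifs with h
  · rfl
  · rw [notMem_support_iff.1 h, map_zero]

lemma Dx_mul (P Q : R[X]) : Dx D (P * Q) = Dx D P * Q + P * Dx D Q := by
  ext1 n
  rw [coeff_Dx, coeff_add, coeff_mul, coeff_mul, coeff_mul, map_sum,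
    ← Finset.sum_add_distrib]
  refine Finset.sum_congr rfl fun x _ => ?_
  rw [Derivation.leibniz, coeff_Dx, coeff_Dx, smul_eq_mul, smul_eq_mul]
  ring

lemma Dx_sub (P Q : R[X]) : Dx D (P - Q) = Dx D P - Dx D Q := by
  ext1 n
  rw [coeff_Dx, coeff_sub, coeff_sub, coeff_Dx, coeff_Dx, map_sub]

lemma Dx_X : Dx D (X : R[X]) = 0 := by
  ext1 n
  rw [coeff_Dx, coeff_X, coeff_zero]
  split_ifs <;> simp

lemma Dx_C (a : R) : Dx D (C a : R[X]) = C (D a) := by
  ext1 n
  rw [coeff_Dx, coeff_C, coeff_C]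
  split_ifs <;> simp

lemma Dx_one : Dx D (1 : R[X]) = 0 := by
  rw [← C_1, Dx_C]; simp

lemma Dx_pow (P : R[X]) (n : ℕ) : Dx D (P ^ n) = (n : R[X]) * P ^ (n - 1) * Dx D P := by
  induction n with
  | zero => rw [pow_zero, Dx_one]; simp
  | succ m ih =>
    rw [pow_succ, Dx_mul, ih]
    rcases m with _ | m
    · simp
    · simp only [Nat.add_sub_cancel]; push_cast; ring

lemma degree_Dx_le (P : R[X]) : (Dx D P).degree ≤ P.degree := by
  rw [degree_le_iff_coeff_zero]
  intro n hn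
  rw [coeff_Dx, coeff_eq_zero_of_degree_lt hn, map_zero]

lemma noTop_Dx (p : ℕ) (P : R[X]) (hP : NoTop p P) : NoTop p (Dx D P) := by
  intro i
  rw [coeff_Dx, hP i, map_zero]

lemma Dx_pp {ι : Type*} [Fintype ι] (b : ι → R) (hb : ∀ j, D (b j) = 0) (A : ι → ℕ) :
    Dx D (pp b A) = 0 := by
  classical
  have h : ∀ s : Finset ι, Dx D (∏ j ∈ s, (X - C (b j)) ^ A j) = 0 := by
    intro s
    induction s using Finset.induction_on with
    | empty => rw [Finset.prod_empty, Dx_one]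
    | insert a s ha ih =>
      rw [Finset.prod_insert ha, Dx_mul, ih, Dx_pow, Dx_sub, Dx_X, Dx_C, hb a]
      simp
  exact h Finset.univ

lemma Dx_U (L H U W : R[X]) (hL : Dx D L = -1) (hH : Dx D H = 0) (N : ℕ) (hN : 1 ≤ N)
    (hU : U = L * W) :
    Dx D (U * (L ^ N * H)) = (Dx D U - C (N : R) * W) * (L ^ N * H) := by
  obtain ⟨M, rfl⟩ : ∃ M, N = M + 1 := ⟨N - 1, by omega⟩
  rw [Dx_mul, Dx_mul, Dx_pow, hL, hH]
  simp only [Nat.add_sub_cancel]
  have h2 : (C ((M + 1 : ℕ) : R) : R[X]) = ((M + 1 : ℕ) : R[X]) := by simp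
  have h3 : U * (((M + 1 : ℕ) : R[X]) * L ^ M * -1 * H + L ^ (M + 1) * 0) =
      -(((M + 1 : ℕ) : R[X]) * W * (L ^ (M + 1) * H)) := by
    rw [hU]; ring
  rw [h3, h2]
  ring

end deriv

section domain

variable {R : Type*} [CommRing R]

lemma natCast_isUnit (p : ℕ) [Fact p.Prime] [CharP R p] (n : ℕ) (h1 : 1 ≤ n) (h2 : n < p) :
    IsUnit ((n : ℕ) : R) := by
  have hcop : Nat.Coprime n p := by
    rw [Nat.coprime_comm]
    rw [Nat.Prime.coprime_iff_not_dvd (Fact.out : p.Prime)]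
    intro h
    have := Nat.le_of_dvd (by omega) h
    omega
  have h3 : IsUnit ((n : ℕ) : ZMod p) := (ZMod.isUnit_iff_coprime n p).2 hcop
  have h4 := h3.map (ZMod.castHom (dvd_refl p) R)
  simpa using h4

lemma pow_dvd [IsDomain R] (p : ℕ) [Fact p.Prime] [CharP R p]
    (D : Derivation ℤ R R) (L H : R[X]) (hDL : Dx D L = -1) (hDH : Dx D H = 0)
    (hLm : L.Monic) (hLd : L.degree = 1) (A0 : ℕ) (hA0 : 1 ≤ A0) (d : ℕ)
    (hyp : ∀ U : R[X], U.degree < (d : WithBot ℕ) → NoTop p (U * (L ^ A0 * H)) → L ∣ U) (m : ℕ)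
    (hm : m + A0 ≤ p) :
    ∀ U : R[X], U.degree < (d : WithBot ℕ) → NoTop p (U * (L ^ A0 * H)) → L ^ m ∣ U := by
  have hL0 : L ≠ 0 := hLm.ne_zero
  induction m with
  | zero => intro U _ _; simp
  | succ m ih =>
    intro U hU hU'
    rcases Nat.eq_zero_or_pos m with rfl | hmpos
    · rw [zero_add, pow_one]
      exact hyp U hU hU'
    · obtain ⟨W, hW⟩ := ih (by omega) U hU hU'
      obtain ⟨m', rfl⟩ : ∃ m', m = m' + 1 := ⟨m - 1, by omega⟩
      obtain ⟨W1, hW1⟩ : ∃ W1, W1 = L ^ m' * W := ⟨_, rfl⟩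
      have hUW1 : U = L * W1 := by rw [hW, hW1]; ring
      obtain ⟨V, hV⟩ : ∃ V, V = Dx D U - C (A0 : R) * W1 := ⟨_, rfl⟩
      have hVdeg : V.degree < d := by
        have e1 : W1.degree < d := by
          refine lt_of_le_of_lt ?_ hU
          rw [hUW1, hLm.degree_mul_comm, hLm.degree_mul, hLd]
          exact le_add_of_nonneg_right (by norm_num)
        rw [hV]
        refine lt_of_le_of_lt (degree_sub_le _ _) (max_lt ?_ ?_)
        · exact lt_of_le_of_lt (degree_Dx_le D U) hU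
        · exact lt_of_le_of_lt ((degree_mul_le _ _).trans (add_le_of_nonpos_left degree_C_le)) e1
      have hVtop : NoTop p (V * (L ^ A0 * H)) := by
        have e1 := noTop_Dx D p _ hU'
        rwa [Dx_U D L H U W1 hDL hDH A0 hA0 hUW1, ← hV] at e1
      have hdvd := ih (by omega) V hVdeg hVtop
      have hVeq : V = L ^ m' * (L * Dx D W - C ((m' + 1 + A0 : ℕ) : R) * W) := by
        rw [hV, hW1, hW, Dx_mul, Dx_pow, hDL]
        simp only [Nat.add_sub_cancel]
        have e4 : (C ((m' + 1 + A0 : ℕ) : R) : R[X]) = ((m' + 1 + A0 : ℕ) : R[X]) := by simp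
        have e5 : (C (A0 : R) : R[X]) = (A0 : R[X]) := by simp
        rw [e4, e5]
        push_cast
        ring
      rw [hVeq, pow_succ, mul_dvd_mul_iff_left (pow_ne_zero _ hL0)] at hdvd
      have hdvd2 : L ∣ C ((m' + 1 + A0 : ℕ) : R) * W :=
        (dvd_sub_right (dvd_mul_right L (Dx D W))).1 hdvd
      have hunit : IsUnit (C ((m' + 1 + A0 : ℕ) : R) : R[X]) :=
        isUnit_C.2 (natCast_isUnit p _ (by omega) (by omega))
      have hdvd3 : L ∣ W := by
        rwa [hunit.dvd_mul_left] at hdvd2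
      rw [hW, pow_succ]
      exact mul_dvd_mul_left _ hdvd3

end domain

end Pool.Agent.N780.CC.IND

namespace Pool.Agent.N780.CC

/-- **part IND** -/
theorem part_IND : S_IND := by
  intro R _ _ p _ _ D ι _ b hb t ht A A0 hA0 d hd hyp U hU hU'
  have hDL : IND.Dx D (X - C t) = -1 := by
    rw [IND.Dx_sub, IND.Dx_X, IND.Dx_C, ht, C_1, zero_sub]
  have hdvd : (X - C t) ^ (p - A0) ∣ U :=
    IND.pow_dvd p D (X - C t) (pp b A) hDL (IND.Dx_pp D b hb A) (monic_X_sub_C t)
      (degree_X_sub_C t) A0 hA0 d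
      (fun U h1 h2 => dvd_iff_isRoot.2 (hyp U h1 h2)) (p - A0) (by omega) U hU hU'
  refine eq_zero_of_dvd_of_degree_lt hdvd (hU.trans_le ?_)
  rw [degree_pow, degree_X_sub_C, nsmul_eq_mul, mul_one]
  exact_mod_cast (by omega : d ≤ p - A0)

end Pool.Agent.N780.CC
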