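import Mathlib
import Pool.Agent.N780.CC.Stm

set_option autoImplicit false

/-!
Part KER (helper771): the kernel of the block.
-/

namespace Pool.Agent.N780.CC

open Polynomial

theorem KER.entry {R : Type} [CommRing R] (p d : ℕ) (hp : 2 ≤ p) (F : R[X]) (u : Fin d → R)
    (a : Fin d) : (hw p d F).mulVec u a =
      ((∑ j, C (u j) * X ^ (j : ℕ)) * F).coeff ((a : ℕ) * p + (p - 1)) := by
  rw [Finset.sum_mul, finset_sum_coeff]
  show ∑ b, (hw p d F) a b * u b = _
  refine Finset.sum_congr rfl fun b _ => ?_
  have h1 : p * ((a : ℕ) + 1) = ((a : ℕ) * p + (p - 1)) + 1 := by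
    obtain ⟨q, rfl⟩ : ∃ q, p = q + 2 := ⟨p - 2, by omega⟩
    have : q + 2 - 1 = q + 1 := by omega
    rw [this]
    ring
  have h2 : (hw p d F) a b = (X ^ (b : ℕ) * F).coeff ((a : ℕ) * p + (p - 1)) := by
    unfold hw
    rw [Matrix.of_apply, h1, pow_succ', mul_assoc, coeff_X_mul]
  rw [h2, mul_assoc, coeff_C_mul, mul_comm]

theorem part_KER : S_KER := by
  intro R _ p d hp F hF u
  constructor
  · intro h i
    by_cases hi : i < d
    · have h1 := congrFun h ⟨i, hi⟩
      rw [KER.entry p d hp F u] at h1
      exact h1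
    · rcases Nat.eq_zero_or_pos d with h0 | h0
      · subst h0
        simp
      · apply coeff_eq_zero_of_natDegree_lt
        have h1 : (∑ j : Fin d, C (u j) * X ^ (j : ℕ) : R[X]).natDegree ≤ d - 1 := by
          refine natDegree_sum_le_of_forall_le _ _ fun j _ => ?_
          refine (natDegree_C_mul_X_pow_le _ _).trans ?_
          have := j.2
          omega
        have h3 := natDegree_mul_le (p := (∑ j : Fin d, C (u j) * X ^ (j : ℕ) : R[X])) (q := F)
        have h4 : d * p ≤ i * p := Nat.mul_le_mul_right p (by omega)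
        have h5 : (d - 1) + (d + 1) * (p - 1) < d * p + (p - 1) := by
          obtain ⟨e, rfl⟩ : ∃ e, d = e + 1 := ⟨d - 1, by omega⟩
          obtain ⟨q, rfl⟩ : ∃ q, p = q + 2 := ⟨p - 2, by omega⟩
          have e1 : q + 2 - 1 = q + 1 := by omega
          have e2 : e + 1 - 1 = e := by omega
          rw [e1, e2]
          nlinarith
        omega
  · intro h
    funext a
    rw [KER.entry p d hp F u, h]
    rfl

end Pool.Agent.N780.CC
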