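import Mathlib
import Pool.Agent.N780.CC.Stm

/-!
# CC/PAIR: pairing of the complementary exponents (helper595)
-/

set_option autoImplicit false

namespace Pool.Agent.N780.CC

open Polynomial

namespace Pair

/-- the component of the exponents congruent to `-1` modulo `p` -/
noncomputable def T {R : Type*} [CommRing R] (p : ℕ) (P : R[X]) : R[X] :=
  (contract p (X * P)).divX

lemma coeff_T {R : Type*} [CommRing R] {p : ℕ} (hp : 1 ≤ p) (P : R[X]) (i : ℕ) :
    (T p P).coeff i = P.coeff (i * p + (p - 1)) := by
  rw [T, coeff_divX, coeff_contract (by omega)]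
  have : (i + 1) * p = (i * p + (p - 1)) + 1 := by
    rw [Nat.add_mul]
    omega
  rw [this, coeff_X_mul]

lemma X_mul_T {R : Type*} [CommRing R] {p : ℕ} (hp : 1 ≤ p) (P : R[X]) :
    T p P * X = contract p (X * P) := by
  have h := divX_mul_X_add (contract p (X * P))
  rw [coeff_contract (by omega), zero_mul, coeff_X_mul_zero, C_0, add_zero] at h
  exact h

lemma T_add {R : Type*} [CommRing R] {p : ℕ} (hp : 1 ≤ p) (P Q : R[X]) :
    T p (P + Q) = T p P + T p Q := by
  ext i
  simp [coeff_T hp]

lemma T_mul_expand {R : Type*} [CommRing R] [IsDomain R] {p : ℕ} (hp : 1 ≤ p) (P g : R[X]) :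
    T p (P * expand R p g) = T p P * g := by
  have h : T p (P * expand R p g) * X = T p P * g * X := by
    rw [X_mul_T hp, ← mul_assoc, contract_mul_expand (by omega), ← X_mul_T hp]
    ring
  exact mul_right_cancel₀ X_ne_zero h

lemma T_C_mul {R : Type*} [CommRing R] {p : ℕ} (hp : 1 ≤ p) (c : R) (P : R[X]) :
    T p (C c * P) = C c * T p P := by
  ext i
  simp [coeff_T hp]

lemma noTop_iff {R : Type*} [CommRing R] {p : ℕ} (hp : 1 ≤ p) (P : R[X]) :
    NoTop p P ↔ T p P = 0 := by
  constructor
  · intro h
    ext i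
    rw [coeff_T hp, h i, coeff_zero]
  · intro h i
    rw [← coeff_T hp, h, coeff_zero]

lemma exists_anti {K : Type*} [Field K] (p : ℕ) [Fact p.Prime] [CharP K p] (P : K[X])
    (h : NoTop p P) : ∃ Q : K[X], derivative Q = P ∧ Q.natDegree ≤ P.natDegree + 1 := by
  have hp : p.Prime := Fact.out
  refine ⟨∑ k ∈ Finset.range (P.natDegree + 1), C (P.coeff k / ((k : K) + 1)) * X ^ (k + 1), ?_, ?_⟩
  · rw [derivative_sum]
    conv_rhs => rw [P.as_sum_range_C_mul_X_pow]
    refine Finset.sum_congr rfl fun k _ => ?_
    rw [derivative_C_mul_X_pow, Nat.add_sub_cancel]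
    congr 2
    push_cast
    by_cases h0 : (k : K) + 1 = 0
    · have h1 : ((k + 1 : ℕ) : K) = 0 := by
        push_cast
        exact h0
      rw [CharP.cast_eq_zero_iff K p] at h1
      obtain ⟨i, hi⟩ := h1
      have h2 : k = (i - 1) * p + (p - 1) := by
        have hi1 : 1 ≤ i := by
          rcases Nat.eq_zero_or_pos i with h | h
          · rw [h] at hi
            omega
          · exact h
        have h3 : (i - 1) * p + p = p * i := by
          obtain ⟨j, rfl⟩ := Nat.exists_eq_add_of_le hi1
          rw [Nat.add_sub_cancel_left]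
          ring
        have := hp.pos
        omega
      rw [h0, mul_zero, h2, h (i - 1)]
    · rw [div_mul_cancel₀ _ h0]
  · refine natDegree_sum_le_of_forall_le _ _ fun k hk => ?_
    refine (natDegree_C_mul_X_pow_le _ _).trans ?_
    have := Finset.mem_range.1 hk
    omega

lemma dvd_of_derivative {K : Type*} [Field K] (p : ℕ) [Fact p.Prime] [CharP K p] (b : K) (P : K[X])
    (h0 : P.eval b = 0) (k : ℕ) (hk : k < p) (h : (X - C b) ^ k ∣ derivative P) (hk2 : k + 2 ≤ p + 1) :
    (X - C b) ^ (k + 1) ∣ P := by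
  induction k with
  | zero =>
    rw [zero_add, pow_one]
    exact dvd_iff_isRoot.2 h0
  | succ k ih =>
    obtain ⟨R, hR⟩ := ih (by omega) ((pow_dvd_pow _ (Nat.le_succ k)).trans h) (by omega)
    have hd : derivative P = (X - C b) ^ k * (C ((k : K) + 1) * R) + (X - C b) ^ (k + 1) * derivative R := by
      rw [hR, derivative_mul, derivative_X_sub_C_pow]
      simp
      ring
    rw [hd] at h
    have h1 : (X - C b) ^ (k + 1) ∣ (X - C b) ^ k * (C ((k : K) + 1) * R) :=
      (dvd_add_left (dvd_mul_right _ _)).1 h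
    rw [pow_succ] at h1
    have h2 : X - C b ∣ C ((k : K) + 1) * R :=
      (mul_dvd_mul_iff_left (pow_ne_zero _ (X_sub_C_ne_zero b))).1 h1
    have h3 : (k : K) + 1 ≠ 0 := by
      intro h
      have h1 : ((k + 1 : ℕ) : K) = 0 := by
        push_cast
        exact h
      rw [CharP.cast_eq_zero_iff K p] at h1
      exact absurd (Nat.le_of_dvd (Nat.succ_pos k) h1) (by omega)
    have h4 : X - C b ∣ R := by
      have : IsUnit (C ((k : K) + 1)) := isUnit_C.2 (isUnit_iff_ne_zero.2 h3)
      exact (this.dvd_mul_left).1 h2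
    obtain ⟨R', hR'⟩ := h4
    refine ⟨R', ?_⟩
    rw [hR, hR']
    ring

end Pair

open Pair

theorem part_PAIR : S_PAIR := by
  intro K _ p hpp _ ι _ b hb A hA t ht A0 hA0 d d' hdd U V hU hV hNU hNV
  classical
  have hp : p.Prime := Fact.out
  have hp1 : 1 ≤ p := hp.pos
  by_cases hV0 : V = 0
  · rw [hV0, eval_zero, mul_zero]
  have hd' : V.natDegree < d' := (natDegree_lt_iff_degree_lt hV0).2 hV
  set n := Fintype.card ι with hn
  -- points
  let bb : Option ι → K := fun o => o.elim t b
  let AA : Option ι → ℕ := fun o => o.elim A0 A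
  have hbb : Function.Injective bb := by
    intro x y hxy
    rcases x with _ | x <;> rcases y with _ | y
    · rfl
    · exact absurd hxy.symm (ht y)
    · exact absurd hxy (ht x)
    · exact congrArg some (hb hxy)
  have hAA : ∀ o, 1 ≤ AA o ∧ AA o + 2 ≤ p := by
    intro o
    rcases o with _ | o
    exacts [hA0, hA o]
  set Fc : K[X] := (X - C t) ^ (p - 1 - A0) * pp b (fun j => p - 1 - A j) with hFc
  have hFc' : Fc = ∏ o, (X - C (bb o)) ^ (p - 1 - AA o) := by
    rw [Fintype.prod_option]
    rfl
  set F0 : K[X] := (X - C t) ^ (A0 - 1) * pp b A with hF0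
  obtain ⟨Q, hQ, hQd⟩ := exists_anti p _ hNV
  -- the interpolating polynomial
  let v : Option ι → K := fun o => bb o ^ p
  have hv : Set.InjOn v (Finset.univ : Finset (Option ι)) := by
    intro x _ y _ hxy
    exact hbb (frobenius_inj K p hxy)
  let z : K[X] := Lagrange.interpolate Finset.univ v (fun o => Q.eval (bb o))
  have hz : ∀ o, (expand K p z).eval (bb o) = Q.eval (bb o) := by
    intro o
    rw [expand_eval]
    exact Lagrange.eval_interpolate_at_node _ hv (Finset.mem_univ o)
  have hzd : derivative (expand K p z) = 0 := by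
    rw [derivative_expand, CharP.cast_eq_zero, zero_mul, mul_zero]
  set W1 : K[X] := ∏ j, (X - C (b j)) ^ (p - A j) with hW1
  set W : K[X] := (X - C t) ^ (p - A0) * W1 with hW
  have hW' : W = ∏ o, (X - C (bb o)) ^ (p - AA o) := by
    rw [Fintype.prod_option]
    rfl
  have hdvd : W ∣ Q - expand K p z := by
    rw [hW']
    apply Finset.prod_dvd_of_coprime
    · intro x _ y _ hxy
      exact (pairwise_coprime_X_sub_C hbb hxy).pow
    · intro o _
      have h1 : (Q - expand K p z).eval (bb o) = 0 := by
        rw [eval_sub, hz, sub_self]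
      have h2 : derivative (Q - expand K p z) = V * Fc := by
        rw [derivative_sub, hQ, hzd, sub_zero]
      have h3 : (X - C (bb o)) ^ (p - 1 - AA o) ∣ derivative (Q - expand K p z) := by
        rw [h2, hFc']
        exact (Finset.dvd_prod_of_mem (fun o => (X - C (bb o)) ^ (p - 1 - AA o))
          (Finset.mem_univ o)).mul_left _
      have h4 := dvd_of_derivative p (bb o) _ h1 (p - 1 - AA o) (by have := hAA o; omega) h3
        (by have := hAA o; omega)
      have h5 : p - AA o = p - 1 - AA o + 1 := by
        have := hAA o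
        omega
      rwa [h5]
  obtain ⟨R, hR⟩ := hdvd
  have hQR : Q = expand K p z + W * R := by
    rw [← hR]
    ring
  -- the polynomial `h ^ p`
  let h1 : K[X] := ∏ o, (X - C (bb o ^ p))
  have hh1 : expand K p h1 = ∏ o, (X - C (bb o)) ^ p := by
    simp only [h1, map_prod]
    refine Finset.prod_congr rfl fun o _ => ?_
    rw [map_sub, expand_X, expand_C, C_pow, sub_pow_char]
  have hh1m : h1.Monic := monic_prod_of_monic _ _ fun o _ => monic_X_sub_C _
  have hh1d : h1.natDegree = n + 1 := by
    rw [natDegree_prod_of_monic _ _ fun o _ => monic_X_sub_C _]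
    simp only [natDegree_X_sub_C, Finset.sum_const, Finset.card_univ, Fintype.card_option, hn,
      smul_eq_mul, mul_one]
  have hE : (X - C t) * (F0 * W) = expand K p h1 := by
    rw [hh1, Fintype.prod_option, hF0, hW, hW1, pp]
    have e1 : ∏ i, (X - C (bb (some i))) ^ p =
        (∏ j, (X - C (b j)) ^ A j) * ∏ j, (X - C (b j)) ^ (p - A j) := by
      rw [← Finset.prod_mul_distrib]
      refine Finset.prod_congr rfl fun j _ => ?_
      rw [← pow_add]
      congr 1
      have := hA j
      omega
    have e2 : (X - C (bb none)) ^ p = (X - C t) * (X - C t) ^ (A0 - 1) * (X - C t) ^ (p - A0) := by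
      rw [← pow_succ', ← pow_add]
      congr 1
      omega
    rw [e1, e2]
    ring
  have hEm : (F0 * W).Monic := by
    refine Monic.mul (((monic_X_sub_C t).pow _).mul ?_) (((monic_X_sub_C t).pow _).mul ?_)
    · exact monic_prod_of_monic _ _ fun o _ => (monic_X_sub_C _).pow _
    · exact monic_prod_of_monic _ _ fun o _ => (monic_X_sub_C _).pow _
  have hEd : (F0 * W).natDegree + 1 = (n + 1) * p := by
    have h := congrArg natDegree hE
    rw [natDegree_expand, hh1d, (monic_X_sub_C t).natDegree_mul hEm, natDegree_X_sub_C] at h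
    omega
  -- division of `U R`
  set c : K := U.eval t * R.eval t with hc
  obtain ⟨M, hM⟩ : ∃ M : K[X], U * R = (X - C t) * M + C c := by
    have : X - C t ∣ U * R - C c := by
      refine dvd_iff_isRoot.2 ?_
      simp [hc]
    obtain ⟨M, hM⟩ := this
    exact ⟨M, by rw [← hM]; ring⟩
  have hG : U * F0 * Q = U * F0 * expand K p z + M * expand K p h1 + C c * (F0 * W) := by
    rw [hQR, ← hE]
    have : U * F0 * (expand K p z + W * R) = U * F0 * expand K p z + (U * R) * (F0 * W) := by ring
    rw [this, hM]
    ring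
  have hTG : T p (U * F0 * Q) = T p M * h1 + C c * T p (F0 * W) := by
    rw [hG, T_add hp1, T_add hp1, T_mul_expand hp1, T_mul_expand hp1, T_C_mul hp1,
      (noTop_iff hp1 _).1 hNU, zero_mul, zero_add]
  -- degrees
  have hF0d : F0.natDegree = (A0 - 1) + ∑ j, A j := by
    rw [hF0, pp, ((monic_X_sub_C t).pow _).natDegree_mul
      (monic_prod_of_monic _ _ fun o _ => (monic_X_sub_C _).pow _),
      natDegree_prod_of_monic _ _ fun o _ => (monic_X_sub_C _).pow _]
    simp
  have hFcd : Fc.natDegree = (p - 1 - A0) + ∑ j, (p - 1 - A j) := by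
    rw [hFc, pp, ((monic_X_sub_C t).pow _).natDegree_mul
      (monic_prod_of_monic _ _ fun o _ => (monic_X_sub_C _).pow _),
      natDegree_prod_of_monic _ _ fun o _ => (monic_X_sub_C _).pow _]
    simp
  have hsum : ∑ j, A j + ∑ j, (p - 1 - A j) = n * (p - 1) := by
    rw [← Finset.sum_add_distrib, hn, ← Finset.card_univ, ← smul_eq_mul, ← Finset.sum_const]
    refine Finset.sum_congr rfl fun j _ => ?_
    have := hA j
    omega
  have hGd : (U * F0 * Q).natDegree + 2 ≤ (n + 1) * p := by
    have g1 : (U * F0 * Q).natDegree ≤ U.natDegree + F0.natDegree + Q.natDegree :=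
      natDegree_mul_le.trans (Nat.add_le_add_right natDegree_mul_le _)
    have g2 : (V * Fc).natDegree ≤ V.natDegree + Fc.natDegree := natDegree_mul_le
    have g3 : (n + 1) * p = n * (p - 1) + n + p := by
      obtain ⟨q, rfl⟩ := Nat.exists_eq_add_of_le hp1
      rw [Nat.add_sub_cancel_left]
      ring
    omega
  have hco : ∀ i, n ≤ i → (T p (U * F0 * Q)).coeff i = 0 := by
    intro i hi
    rw [coeff_T hp1]
    apply coeff_eq_zero_of_natDegree_lt
    have g1 : n * p ≤ i * p := Nat.mul_le_mul_right _ hi
    have g2 : (n + 1) * p = n * p + p := by ring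
    omega
  have hEco : ∀ i, n < i → (T p (F0 * W)).coeff i = 0 := by
    intro i hi
    rw [coeff_T hp1]
    apply coeff_eq_zero_of_natDegree_lt
    have g1 : (n + 1) * p ≤ i * p := Nat.mul_le_mul_right _ hi
    omega
  have hEn : (T p (F0 * W)).coeff n = 1 := by
    rw [coeff_T hp1]
    have g2 : (n + 1) * p = n * p + p := by ring
    have : n * p + (p - 1) = (F0 * W).natDegree := by omega
    rw [this]
    exact hEm
  have hTM : T p M = 0 := by
    by_contra hne
    have g1 : (T p M * h1).natDegree = (T p M).natDegree + (n + 1) := by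
      rw [natDegree_mul hne hh1m.ne_zero, hh1d]
    have g2 : (T p M * h1).coeff ((T p M).natDegree + (n + 1)) ≠ 0 := by
      rw [← g1]
      exact leadingCoeff_ne_zero.2 (mul_ne_zero hne hh1m.ne_zero)
    have g3 := congrArg (fun P => P.coeff ((T p M).natDegree + (n + 1))) hTG
    simp only [coeff_add, coeff_C_mul] at g3
    rw [hco _ (by omega), hEco _ (by omega), mul_zero, add_zero] at g3
    exact g2 g3.symm
  have hc0 : c = 0 := by
    have g3 := congrArg (fun P => P.coeff n) hTG
    simp only [hTM, zero_mul, zero_add, coeff_C_mul] at g3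
    rw [hco n le_rfl, hEn, mul_one] at g3
    exact g3.symm
  -- conclusion
  have hder : V * Fc = derivative (W * R) := by
    rw [← hQ, hQR, derivative_add, hzd, zero_add]
  have hder2 : V * pp b (fun j => p - 1 - A j) =
      C ((p - A0 : ℕ) : K) * (W1 * R) + (X - C t) * derivative (W1 * R) := by
    have e1 : p - A0 = p - 1 - A0 + 1 := by omega
    have e2 : (X - C t) ^ (p - 1 - A0) * (V * pp b (fun j => p - 1 - A j)) =
        (X - C t) ^ (p - 1 - A0) *
          (C ((p - A0 : ℕ) : K) * (W1 * R) + (X - C t) * derivative (W1 * R)) := by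
      have e3 : (X - C t) ^ (p - 1 - A0) * (V * pp b (fun j => p - 1 - A j)) = V * Fc := by
        rw [hFc]
        ring
      rw [e3, hder, hW, mul_assoc, derivative_mul, e1, derivative_X_sub_C_pow, Nat.add_sub_cancel]
      simp only [map_natCast]
      ring
    exact mul_left_cancel₀ (pow_ne_zero _ (X_sub_C_ne_zero t)) e2
  have hev := congrArg (fun P => U.eval t * P.eval t) hder2
  simp only [eval_add, eval_mul, eval_sub, eval_X, eval_C, sub_self, zero_mul, add_zero] at hev
  have h6 : (pp b (fun j => p - 1 - A j)).eval t ≠ 0 := by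
    rw [pp, eval_prod]
    refine Finset.prod_ne_zero_iff.2 fun j _ => ?_
    rw [eval_pow, eval_sub, eval_X, eval_C]
    exact pow_ne_zero _ (sub_ne_zero.2 (ht j).symm)
  have h7 : U.eval t * V.eval t * (pp b (fun j => p - 1 - A j)).eval t = 0 := by
    have : U.eval t * (((p - A0 : ℕ) : K) * (W1.eval t * R.eval t)) =
        ((p - A0 : ℕ) : K) * W1.eval t * c := by
      rw [hc]
      ring
    rw [mul_assoc, hev, this, hc0, mul_zero]
  exact (mul_eq_zero.1 h7).resolve_right h6

end Pool.Agent.N780.CC
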