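import Pool.Agent.N780.CC.Stm
import Pool.Agent.Y162.HW.Spread

/-!
Cyclic covers of the line with one transcendental branch point: reduction at closed points.
-/

set_option autoImplicit false

open Polynomial

namespace Pool.Agent.N780.CC

open Pool.Agent.Y162.HW (exists_prime_over large_primes chev jac_int)

private lemma spr_det {R S : Type*} [CommRing R] [CommRing S] (p d : ℕ) (φ : R →+* S) (F : R[X]) :
    φ (hw p d F).det = (hw p d (F.map φ)).det := by
  rw [RingHom.map_det]
  congr 1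
  ext i j
  change φ ((X ^ ((j : ℕ) + 1) * F).coeff (p * ((i : ℕ) + 1))) =
    (X ^ ((j : ℕ) + 1) * (F.map φ)).coeff (p * ((i : ℕ) + 1))
  rw [← map_X φ, ← Polynomial.map_pow, ← Polynomial.map_mul, coeff_map]

/-- The polynomial of the block `i`. -/
private noncomputable def bk {R : Type*} [CommRing R] (p m i : ℕ) (G : ℕ → R[X]) : R[X] :=
  ∏ e ∈ Finset.range m, G e ^ ((i * e % m) * ((p - 1) / m))

private lemma bk_map {R S : Type*} [CommRing R] [CommRing S] (p m i : ℕ) (G : ℕ → R[X])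
    (φ : R →+* S) : (bk p m i G).map φ = bk p m i (fun e => (G e).map φ) := by
  unfold bk
  rw [Polynomial.map_prod]
  exact Finset.prod_congr rfl fun e _ => Polynomial.map_pow _ _

private lemma fam_map {R S σ : Type*} [CommRing R] [CommRing S] {n : ℕ} (s : σ) (l : Fin n → R)
    (a : Fin n → ℕ) (a0 e : ℕ) (φ : R →+* S) :
    (fam s l a a0 e).map (MvPolynomial.map φ) = fam s (fun i => φ (l i)) a a0 e := by
  unfold fam
  split_ifs <;> simp [Polynomial.map_mul, Polynomial.map_prod]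

private lemma fam_eval {R S σ : Type*} [CommRing R] [CommRing S] {n : ℕ} (s : σ) (l : Fin n → R)
    (a : Fin n → ℕ) (a0 e : ℕ) (φ : R →+* S) (t : σ → S) :
    (fam s l a a0 e).map (MvPolynomial.eval₂Hom φ t) =
      (if e = a0 then X - C (t s) else 1) * ∏ j with a j = e, (X - C (φ (l j))) := by
  unfold fam
  split_ifs <;> simp [Polynomial.map_mul, Polynomial.map_prod]

/-- For a finitely generated domain of characteristic zero and all large `p` there is a prime of
`R[T]` over `p` which does not contain the determinants. -/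
private lemma exists_prime (h : S_GENZ) {R σ ι : Type} [Fintype ι] [CommRing R] [IsDomain R]
    [CharZero R] [Algebra.FiniteType ℤ R] (m n : ι → ℕ) (hm : ∀ c, 2 ≤ m c)
    (l : ∀ c, Fin (n c) → R) (hl : ∀ c, Function.Injective (l c)) (a : ∀ c, Fin (n c) → ℕ)
    (ha : ∀ c j, a c j < m c) (a0 : ι → ℕ) (ha0 : ∀ c, a0 c < m c)
    (hcop : ∀ c, Nat.Coprime (a0 c) (m c)) (s : ι → σ) :
    ∃ N : ℕ, ∀ p : ℕ, N ≤ p → p.Prime → (∀ c, m c ∣ p - 1) →
      ∃ P : Ideal (MvPolynomial σ R), P.IsPrime ∧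
      (p : MvPolynomial σ R) ∈ P ∧ ∀ c i, 1 ≤ i → i < m c →
        (hw p (dim (m c) i (a0 c) (a c)) (bk p (m c) i (fam (s c) (l c) (a c) (a0 c)))).det ∉ P := by
  classical
  have hNoeth : IsNoetherianRing R := Algebra.FiniteType.isNoetherianRing ℤ R
  obtain ⟨N1, hN1⟩ := exists_prime_over (R := R)
  set δ : R := ∏ i, ∏ x ∈ (Finset.univ : Finset (Fin (n i))).offDiag,
    (l i x.1 - l i x.2) with hδ
  have hδ0 : δ ≠ 0 := by
    rw [hδ, Finset.prod_ne_zero_iff]
    intro i _
    rw [Finset.prod_ne_zero_iff]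
    intro x hx
    rw [Finset.mem_offDiag] at hx
    exact sub_ne_zero.2 fun h => hx.2.2 (hl i h)
  obtain ⟨N2, hN2⟩ := large_primes δ hδ0
  refine ⟨max N1 (max N2 (∑ c, m c * (n c + 2))), fun p hp hpp hdvd => ?_⟩
  have hpf : Fact p.Prime := ⟨hpp⟩
  obtain ⟨Q, hQ, hpQ⟩ := hN1 p ((le_max_left _ _).trans hp) hpp
  obtain ⟨P, hP, hPQ⟩ := Ideal.exists_minimalPrimes_le
    (show Ideal.span {(p : R)} ≤ Q by rw [Ideal.span_le]; simpa using hpQ)
  have hPp : P.IsPrime := hP.1.1
  have hδP := hN2 p ((le_max_left _ _).trans ((le_max_right _ _).trans hp)) hpp P hP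
  have hpP : (p : R) ∈ P := hP.1.2 (Ideal.subset_span rfl)
  let K := FractionRing (R ⧸ P)
  let ψ : R →+* K := (algebraMap (R ⧸ P) K).comp (Ideal.Quotient.mk P)
  have hψinj : Function.Injective (algebraMap (R ⧸ P) K) := IsFractionRing.injective _ _
  have hψ : ∀ x, ψ x = 0 ↔ x ∈ P := by
    intro x
    change (algebraMap (R ⧸ P) K) (Ideal.Quotient.mk P x) = 0 ↔ _
    rw [map_eq_zero_iff _ hψinj, Ideal.Quotient.eq_zero_iff_mem]
  have hK0 : ((p : ℕ) : K) = 0 := by
    have := (hψ (p : R)).2 hpP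
    rwa [map_natCast] at this
  have : CharP K p := by
    obtain ⟨q, hq⟩ := CharP.exists K
    have h1 : q ∣ p := (CharP.cast_eq_zero_iff K q p).1 hK0
    rcases (Nat.dvd_prime hpp).1 h1 with h2 | h2
    · subst h2
      exact absurd (CharP.char_ne_one K 1 rfl) (by simp)
    · rwa [← h2]
  have hlinj : ∀ ii, Function.Injective fun i => ψ (l ii i) := by
    intro ii i j hij
    by_contra hne
    apply hδP
    have h1 : ψ (l ii i - l ii j) = 0 := by rw [map_sub]; exact sub_eq_zero.2 hij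
    have h2 := (hψ _).1 h1
    have h3 : (∏ x ∈ (Finset.univ : Finset (Fin (n ii))).offDiag, (l ii x.1 - l ii x.2)) ∈ P :=
      P.mem_of_dvd (Finset.dvd_prod_of_mem
        (fun x : Fin (n ii) × Fin (n ii) => l ii x.1 - l ii x.2)
        (show (i, j) ∈ (Finset.univ : Finset (Fin (n ii))).offDiag by
          rw [Finset.mem_offDiag]; exact ⟨Finset.mem_univ _, Finset.mem_univ _, hne⟩)) h2
    exact P.mem_of_dvd (Finset.dvd_prod_of_mem
      (fun i => ∏ x ∈ (Finset.univ : Finset (Fin (n i))).offDiag, (l i x.1 - l i x.2))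
      (Finset.mem_univ ii)) h3
  have hp3 : ∑ c, m c * (n c + 2) ≤ p := (le_max_right _ _).trans ((le_max_right _ _).trans hp)
  refine ⟨RingHom.ker (MvPolynomial.map ψ), RingHom.ker_isPrime _, ?_, fun c i hi1 hi2 => ?_⟩
  · rw [RingHom.mem_ker, map_natCast]
    have : ((p : ℕ) : MvPolynomial σ K) = MvPolynomial.C ((p : ℕ) : K) := by simp
    rw [this, hK0, MvPolynomial.C_0]
  · have hgi : m c * (n c + 2) ≤ ∑ c, m c * (n c + 2) :=
      Finset.single_le_sum (f := fun c => m c * (n c + 2)) (fun _ _ => Nat.zero_le _)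
      (Finset.mem_univ c)
    have hdet := h K p σ (s c) (m c) (n c) i (a0 c) (hm c) (hdvd c) (hgi.trans hp3) hi1 hi2
      (ha0 c) (hcop c) (fun j => ψ (l c j)) (hlinj c) (a c) (ha c)
    rw [RingHom.mem_ker, spr_det, bk_map]
    simp_rw [fam_map]
    exact hdet

theorem part_SPR (h : S_GENZ) : Final := by
  classical
  intro k _ _ σ ι _ _ m n hm l hl a ha a0 ha0 hcop t ht s A hA F hF c hc
  -- the rings
  set S : Set k := ⋃ i, Set.range (l i) with hS
  have hSfin : S.Finite := Set.finite_iUnion fun i => Set.finite_range (l i)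
  let A0 : Subalgebra ℤ k := Algebra.adjoin ℤ S
  have hA0 : A0.FG := Subalgebra.fg_def.2 ⟨S, hSfin, rfl⟩
  let B : Subalgebra ℤ k := A ⊔ (A0 ⊔ Algebra.adjoin ℤ (Set.range t))
  have hB : B.FG :=
    hA.sup (hA0.sup (Subalgebra.fg_def.2 ⟨Set.range t, Set.finite_range t, rfl⟩))
  have hAB : A ≤ B := le_sup_left
  have hA0B : A0 ≤ B := le_sup_left.trans le_sup_right
  have htB : ∀ i, t i ∈ B := fun i =>
    (le_sup_right.trans le_sup_right : Algebra.adjoin ℤ (Set.range t) ≤ B)
      (Algebra.subset_adjoin ⟨i, rfl⟩)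
  have hlA0 : ∀ i j, l i j ∈ A0 := fun i j =>
    Algebra.subset_adjoin (Set.mem_iUnion.2 ⟨i, j, rfl⟩)
  let l0 : ∀ i, Fin (n i) → A0 := fun i j => ⟨l i j, hlA0 i j⟩
  have hl0 : ∀ i, Function.Injective (l0 i) := fun i j j' h => hl i (congrArg Subtype.val h)
  have hfA0 : Algebra.FiniteType ℤ A0 := (Subalgebra.fg_iff_finiteType _).mp hA0
  have hfB : Algebra.FiniteType ℤ B := (Subalgebra.fg_iff_finiteType _).mp hB
  have hfA : Algebra.FiniteType ℤ A := (Subalgebra.fg_iff_finiteType _).mp hA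
  -- the map `A0[T] → B`
  let i0 : A0 →+* B := (Subalgebra.inclusion hA0B).toRingHom
  let f : MvPolynomial σ A0 →+* B := MvPolynomial.eval₂Hom i0 (fun i => ⟨t i, htB i⟩)
  have hfk : ∀ P : MvPolynomial σ A0, ((f P : B) : k) = MvPolynomial.aeval t P := by
    intro P
    change (algebraMap B k) (MvPolynomial.eval₂Hom i0 (fun i => ⟨t i, htB i⟩) P) = _
    rw [MvPolynomial.map_eval₂Hom]
    rfl
  have htr : Function.Injective (MvPolynomial.aeval t : MvPolynomial σ A0 →ₐ[A0] k) := by
    have hle : ∀ x : A0, (x : k) ∈ IntermediateField.adjoin ℚ S := by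
      intro x
      have h1 : A0 ≤ (IntermediateField.adjoin ℚ S).toSubalgebra.restrictScalars ℤ :=
        Algebra.adjoin_le (IntermediateField.subset_adjoin ℚ _)
      exact h1 x.2
    let j : A0 →+* IntermediateField.adjoin ℚ S :=
      (algebraMap A0 k).codRestrict _ (fun x => hle x)
    have hj : Function.Injective j := by
      intro x y h
      have := congrArg Subtype.val h
      exact Subtype.ext this
    have h2 : ∀ P : MvPolynomial σ A0,
        MvPolynomial.aeval t P = MvPolynomial.aeval t (MvPolynomial.map j P) := by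
      intro P
      rw [MvPolynomial.aeval_def, MvPolynomial.aeval_def, MvPolynomial.eval₂_map]
      rfl
    intro P Q hPQ
    rw [h2, h2] at hPQ
    exact MvPolynomial.map_injective j hj (ht hPQ)
  have hf : Function.Injective f := by
    intro P Q h
    have h1 := congrArg Subtype.val h
    rw [hfk, hfk] at h1
    exact htr h1
  have hft : f.FiniteType := by
    have h1 : (f.comp (algebraMap ℤ (MvPolynomial σ A0))).FiniteType := by
      have : (algebraMap ℤ B).FiniteType := RingHom.finiteType_algebraMap.mpr inferInstance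
      rwa [show algebraMap ℤ B = f.comp (algebraMap ℤ (MvPolynomial σ A0)) from
        RingHom.ext_int _ _] at this
    exact RingHom.FiniteType.of_comp_finiteType h1
  have hJ : IsJacobsonRing A := by
    have := jac_int
    exact isJacobsonRing_of_finiteType (A := ℤ)
  have hNoeth : IsNoetherianRing A0 := Algebra.FiniteType.isNoetherianRing ℤ A0
  let iA : A →+* B := (Subalgebra.inclusion hAB).toRingHom
  have hiA : Function.Injective iA := Subalgebra.inclusion_injective hAB
  have hc' : iA c ≠ 0 := by rwa [map_ne_zero_iff _ hiA]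
  obtain ⟨c0, hc0, hlift⟩ := chev f hf hft (iA c) hc'
  obtain ⟨N1, hN1⟩ := large_primes c0 hc0
  obtain ⟨N2, hN2⟩ := exists_prime h m n hm l0 hl0 a ha a0 ha0 hcop s
  have hFB : ∀ i e, (F i e).map iA = (fam (s i) (l0 i) (a i) (a0 i) e).map f := by
    intro i e
    apply map_injective (algebraMap B k) Subtype.val_injective
    rw [Polynomial.map_map, Polynomial.map_map]
    have e1 : (algebraMap B k).comp iA = algebraMap A k := rfl
    have e2 : (algebraMap B k).comp f = MvPolynomial.eval₂Hom (algebraMap A0 k) t := by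
      refine RingHom.ext fun P => ?_
      exact hfk P
    rw [e1, e2, hF, fam_eval]
    rfl
  refine ⟨max N1 N2, fun p hp hpp hdvd => ?_⟩
  obtain ⟨P', hP', hpP', hdP'⟩ := hN2 p ((le_max_right _ _).trans hp) hpp hdvd
  obtain ⟨P, hP, hPP'⟩ := Ideal.exists_minimalPrimes_le
    (show Ideal.span {(p : MvPolynomial σ A0)} ≤ P' by rw [Ideal.span_le]; simpa using hpP')
  have hPp : P.IsPrime := hP.1.1
  have hc0P := hN1 p ((le_max_left _ _).trans hp) hpp P hP
  have hdP : ∀ i j, 1 ≤ j → j < m i → (hw p (dim (m i) j (a0 i) (a i))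
      (bk p (m i) j (fam (s i) (l0 i) (a i) (a0 i)))).det ∉ P :=
    fun i j h1 h2 h => hdP' i j h1 h2 (hPP' h)
  obtain ⟨Q, hQ, hQP, hcQ⟩ := hlift P hPp hc0P
  let M0 : Ideal A := Q.comap iA
  have hM0 : M0.IsPrime := Ideal.comap_isPrime iA Q
  have hpM0 : (p : A) ∈ M0 := by
    change iA (p : A) ∈ Q
    have h1 : (p : MvPolynomial σ A0) ∈ Q.comap f := by
      rw [hQP]; exact hP.1.2 (Ideal.subset_span rfl)
    rw [Ideal.mem_comap, map_natCast] at h1
    rwa [map_natCast]
  have hdM0 : ∀ i j, 1 ≤ j → j < m i → (hw p (dim (m i) j (a0 i) (a i))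
      (bk p (m i) j (F i))).det ∉ M0 := by
    intro i j h1 h2 h3
    apply hdP i j h1 h2
    have h4 : iA (hw p (dim (m i) j (a0 i) (a i)) (bk p (m i) j (F i))).det =
        f (hw p (dim (m i) j (a0 i) (a i)) (bk p (m i) j (fam (s i) (l0 i) (a i) (a0 i)))).det := by
      rw [spr_det, spr_det, bk_map, bk_map]
      simp_rw [hFB]
    rw [← hQP, Ideal.mem_comap, ← h4]
    exact h3
  have hcM0 : c ∉ M0 := hcQ
  have hprod : c * ∏ i, ∏ j ∈ Finset.Ico 1 (m i), (hw p (dim (m i) j (a0 i) (a i))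
      (bk p (m i) j (F i))).det ∉ M0 := by
    intro hm
    rcases hM0.mem_or_mem hm with h1 | h1
    · exact hcM0 h1
    · obtain ⟨i, -, hi⟩ := (hM0.prod_mem_iff).1 h1
      obtain ⟨j, hj, hj'⟩ := (hM0.prod_mem_iff).1 hi
      rw [Finset.mem_Ico] at hj
      exact hdM0 i j hj.1 hj.2 hj'
  have hjac : M0.jacobson = M0 := isJacobsonRing_iff_prime_eq.mp hJ M0 hM0
  rw [← hjac, Ideal.jacobson, Submodule.mem_sInf] at hprod
  push Not at hprod
  obtain ⟨M, ⟨hM0M, hM⟩, hMa⟩ := hprod
  refine ⟨M, hM, hM0M hpM0, fun h1 => hMa (Ideal.mul_mem_right _ M h1), fun i j h1 h2 => ?_⟩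
  have h5 : (hw p (dim (m i) j (a0 i) (a i)) (bk p (m i) j
      (fun e => (F i e).map (Ideal.Quotient.mk M)))).det ≠ 0 := by
    rw [← bk_map, ← spr_det]
    intro h3
    refine hMa (Ideal.mul_mem_left M _ ?_)
    refine Ideal.mem_of_dvd M (Finset.dvd_prod_of_mem
      (fun i => ∏ j ∈ Finset.Ico 1 (m i), (hw p (dim (m i) j (a0 i) (a i))
      (bk p (m i) j (F i))).det) (Finset.mem_univ i)) ?_
    exact Ideal.mem_of_dvd M (Finset.dvd_prod_of_mem
      (fun j => (hw p (dim (m i) j (a0 i) (a i)) (bk p (m i) j (F i))).det)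
      (Finset.mem_Ico.2 ⟨h1, h2⟩)) (Ideal.Quotient.eq_zero_iff_mem.1 h3)
  exact h5

end Pool.Agent.N780.CC
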